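import Pool.Agent.PK.Lll
import Pool.Agent.PK.Cher
import Pool.Agent.PK.Defs

/-!
# Project PK (MP_6af60b_co): the splitting lemma
-/

set_option autoImplicit false

open Finset

namespace Pool.Agent.H97.PK

open Pool.Agent.PK Pool.Agent.H24.LP Pool.Agent.H24.LP.Nib

/-- The limit used for the local lemma. -/
theorem split_lim (M C0 δ : ℝ) (hC : 0 < C0) (hδ : 0 < δ) : ∃ K0 : ℕ, ∀ K : ℕ, K0 ≤ K →
    4 * (M * Real.exp (-(δ ^ 2 / (2 * C0) * K))) * (C0 * K + 1) ^ 2 ≤ 1 / 2 := by
  have hc : 0 < δ ^ 2 / (2 * C0) := by positivity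
  have h1 : Filter.Tendsto (fun x : ℝ => x ^ 2 * Real.exp (-x)) Filter.atTop (nhds 0) :=
    Real.tendsto_pow_mul_exp_neg_atTop_nhds_zero 2
  have h2 : Filter.Tendsto (fun K : ℕ => δ ^ 2 / (2 * C0) * (K : ℝ)) Filter.atTop Filter.atTop :=
    Filter.Tendsto.const_mul_atTop hc tendsto_natCast_atTop_atTop
  have h3 := h1.comp h2
  set A : ℝ := 4 * |M| * (C0 + 1) ^ 2 / (δ ^ 2 / (2 * C0)) ^ 2 with hA
  have hA0 : 0 ≤ A := by positivity
  have h4 : ∀ᶠ K : ℕ in Filter.atTop,
      (δ ^ 2 / (2 * C0) * (K : ℝ)) ^ 2 * Real.exp (-(δ ^ 2 / (2 * C0) * (K : ℝ)))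
        < 1 / (2 * (A + 1)) := by
    exact h3.eventually_lt_const (show (0 : ℝ) < 1 / (2 * (A + 1)) by positivity)
  obtain ⟨K0, hK0⟩ := Filter.eventually_atTop.1 h4
  refine ⟨max K0 1, fun K hK => ?_⟩
  have h5 := hK0 K (le_trans (le_max_left _ _) hK)
  have hK1 : (1 : ℝ) ≤ K := by exact_mod_cast le_trans (le_max_right _ _) hK
  have hE := Real.exp_pos (-(δ ^ 2 / (2 * C0) * (K : ℝ)))
  set E := Real.exp (-(δ ^ 2 / (2 * C0) * (K : ℝ))) with hEdef
  have h6 : (C0 * K + 1) ^ 2 ≤ ((C0 + 1) * K) ^ 2 := by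
    apply pow_le_pow_left₀ (by positivity)
    nlinarith
  have h7 : 4 * (M * E) * (C0 * K + 1) ^ 2 ≤ 4 * (|M| * E) * ((C0 + 1) * K) ^ 2 := by
    have e1 : 4 * (M * E) ≤ 4 * (|M| * E) := by
      have := mul_le_mul_of_nonneg_right (le_abs_self M) hE.le
      linarith
    have e2 : 4 * (M * E) * (C0 * K + 1) ^ 2 ≤ 4 * (|M| * E) * (C0 * K + 1) ^ 2 :=
      mul_le_mul_of_nonneg_right e1 (by positivity)
    exact e2.trans (mul_le_mul_of_nonneg_left h6 (by positivity))
  have h8 : 4 * (|M| * E) * ((C0 + 1) * K) ^ 2 = A * ((δ ^ 2 / (2 * C0) * (K : ℝ)) ^ 2 * E) := by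
    rw [hA]
    field_simp
  have h9 : A * ((δ ^ 2 / (2 * C0) * (K : ℝ)) ^ 2 * E) ≤ A * (1 / (2 * (A + 1))) :=
    mul_le_mul_of_nonneg_left h5.le hA0
  have h10 : A * (1 / (2 * (A + 1))) ≤ 1 / 2 := by
    rw [mul_one_div, div_le_div_iff₀ (by positivity) (by norm_num)]
    linarith
  linarith

/-- The splitting lemma. -/
theorem split (C0 δ : ℝ) (hC : 0 < C0) (hδ : 0 < δ) (M : ℕ) (hM : 2 * C0 / δ ≤ M) :
    ∃ K0 : ℕ, ∀ K : ℕ, K0 ≤ K → ∀ (V : Type) [Fintype V] [DecidableEq V] (G : SimpleGraph V)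
      (R : Finset V), (∀ v ∈ R, ((nb G R v).card : ℝ) ≤ C0 * K) →
      ∃ part : V → Fin M, ∀ v ∈ R, ∀ t,
        (((nb G R v).filter fun u => part u = t).card : ℝ) ≤ δ * K := by
  obtain ⟨K0, hK0⟩ := split_lim M C0 δ hC hδ
  refine ⟨max K0 1, ?_⟩
  intro K hK V _ _ G R hR
  classical
  have hK1 : (1 : ℝ) ≤ K := by exact_mod_cast le_trans (le_max_right _ _) hK
  have hMpos : (0 : ℝ) < M := lt_of_lt_of_le (by positivity) hM
  have hMn : 0 < M := by exact_mod_cast hMpos
  have : Nonempty (Fin M) := ⟨⟨0, hMn⟩⟩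
  have hlim := hK0 K (le_trans (le_max_left _ _) hK)
  set q : ℝ := M * Real.exp (-(δ ^ 2 / (2 * C0) * K)) with hq
  have hq0 : 0 ≤ q := by positivity
  have hsq : 1 ≤ (C0 * K + 1) ^ 2 := by
    apply one_le_pow₀
    have : 0 ≤ C0 * (K : ℝ) := by positivity
    linarith
  let S : V → Finset V := fun v => if v ∈ R then nb G R v else ∅
  obtain ⟨P, hPd⟩ : ∃ P : V → (V → Fin M) → Prop, ∀ v x, P v x ↔
      (v ∈ R → ∀ t, (((nb G R v).filter fun u => x u = t).card : ℝ) ≤ δ * K) :=
    ⟨_, fun _ _ => Iff.rfl⟩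
  have hM2 : C0 * K / M ≤ δ * K / 2 := by
    rw [div_le_iff₀ hMpos]
    rw [div_le_iff₀ hδ] at hM
    nlinarith
  obtain ⟨x, hx⟩ := local_lemma P S (by
      intro v x y hxy hP
      rw [hPd] at hP ⊢
      intro hv t
      have h1 := hP hv t
      have h2 : ((nb G R v).filter fun u => y u = t) = ((nb G R v).filter fun u => x u = t) := by
        refine Finset.filter_congr fun u hu => ?_
        have h3 : u ∈ S v := by simp only [S, if_pos hv]; exact hu
        rw [hxy u h3]
      rw [h2]
      exact h1) (q := q) hq0 (by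
      intro v
      by_cases hv : v ∈ R
      · have hsub : (univ.filter fun x => ¬ P v x) ⊆
            (univ : Finset (Fin M)).biUnion fun t => univ.filter fun x : V → Fin M =>
              ∑ w ∈ nb G R v, (1 / (M : ℝ)) + δ * K / 2
                ≤ ∑ w ∈ nb G R v, (if x w = t then (1 : ℝ) else 0) := by
          intro x hxx
          simp only [mem_filter, mem_univ, true_and, hPd, Classical.not_imp, not_forall,
            not_le] at hxx
          obtain ⟨-, t, ht⟩ := hxx
          simp only [mem_biUnion, mem_filter, mem_univ, true_and]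
          refine ⟨t, ?_⟩
          have h1 : ∑ w ∈ nb G R v, (if x w = t then (1 : ℝ) else 0)
              = (((nb G R v).filter fun u => x u = t).card : ℝ) := by
            rw [Finset.sum_ite, Finset.sum_const, Finset.sum_const_zero, add_zero, nsmul_eq_mul,
              mul_one]
          rw [h1, Finset.sum_const, nsmul_eq_mul]
          have h2 : ((nb G R v).card : ℝ) * (1 / M) ≤ C0 * K / M := by
            rw [mul_one_div]
            exact div_le_div_of_nonneg_right (hR v hv) hMpos.le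
          linarith
        have hbd : ∀ t : Fin M, ((univ.filter fun x : V → Fin M =>
              ∑ w ∈ nb G R v, (1 / (M : ℝ)) + δ * K / 2
                ≤ ∑ w ∈ nb G R v, (if x w = t then (1 : ℝ) else 0)).card : ℝ)
              ≤ Real.exp (-(δ ^ 2 / (2 * C0) * K)) * Fintype.card (V → Fin M) := by
          intro t
          have h1 := hoeff (V := V) (α := Fin M) (nb G R v)
            (fun _ y => if y = t then (1 : ℝ) else 0) (fun _ => 1 / (M : ℝ)) (b := 1) one_pos
            (by
              intro w _ y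
              split_ifs <;> norm_num)
            (by
              intro w _
              rw [Finset.sum_ite_eq' univ t (fun _ => (1 : ℝ)), if_pos (mem_univ _),
                Fintype.card_fin, one_div, inv_mul_cancel₀ hMpos.ne'])
            (t := δ * K / 2) (N := C0 * K) (by positivity) (by positivity) (hR v hv)
          refine h1.trans_eq ?_
          congr 2
          field_simp
        refine le_trans (Nat.cast_le.2 (Finset.card_le_card hsub)) ?_
        calc (((univ : Finset (Fin M)).biUnion fun t => univ.filter fun x : V → Fin M =>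
              ∑ w ∈ nb G R v, (1 / (M : ℝ)) + δ * K / 2
                ≤ ∑ w ∈ nb G R v, (if x w = t then (1 : ℝ) else 0)).card : ℝ)
            ≤ ∑ t : Fin M, ((univ.filter fun x : V → Fin M =>
              ∑ w ∈ nb G R v, (1 / (M : ℝ)) + δ * K / 2
                ≤ ∑ w ∈ nb G R v, (if x w = t then (1 : ℝ) else 0)).card : ℝ) := by
              exact_mod_cast Finset.card_biUnion_le
          _ ≤ ∑ _t : Fin M, Real.exp (-(δ ^ 2 / (2 * C0) * K)) * Fintype.card (V → Fin M) :=
              Finset.sum_le_sum fun t _ => hbd t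
          _ = q * Fintype.card (V → Fin M) := by
              rw [Finset.sum_const, Finset.card_univ, Fintype.card_fin, nsmul_eq_mul, hq,
                mul_assoc]
      · refine le_trans (le_of_eq (?_ : _ = (0 : ℝ))) (by positivity)
        rw [Nat.cast_eq_zero, Finset.card_eq_zero, Finset.filter_eq_empty_iff]
        intro x _
        rw [not_not, hPd]
        exact fun h => absurd h hv) (⌊C0 * K⌋₊ ^ 2) (by
      intro v
      by_cases hv : v ∈ R
      · have hsub : (univ.filter fun u => ¬ Disjoint (S v) (S u)) ⊆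
            (nb G R v).biUnion fun w => nb G R w := by
          intro u hu
          simp only [mem_filter, mem_univ, true_and, S, if_pos hv] at hu
          rw [Finset.not_disjoint_iff] at hu
          obtain ⟨w, hw1, hw2⟩ := hu
          by_cases hu : u ∈ R
          · rw [if_pos hu] at hw2
            simp only [mem_biUnion]
            refine ⟨w, hw1, ?_⟩
            simp only [nb, mem_filter] at hw2 ⊢
            exact ⟨hu, hw2.2.symm⟩
          · rw [if_neg hu] at hw2
            exact absurd hw2 (Finset.notMem_empty _)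
        have hfl : ∀ w ∈ R, (nb G R w).card ≤ ⌊C0 * (K : ℝ)⌋₊ := fun w hw =>
          Nat.le_floor (hR w hw)
        calc (univ.filter fun u => ¬ Disjoint (S v) (S u)).card
            ≤ ((nb G R v).biUnion fun w => nb G R w).card := Finset.card_le_card hsub
          _ ≤ ∑ w ∈ nb G R v, (nb G R w).card := Finset.card_biUnion_le
          _ ≤ ∑ _w ∈ nb G R v, ⌊C0 * (K : ℝ)⌋₊ := Finset.sum_le_sum fun w hw =>
              hfl w (Finset.mem_filter.1 hw).1
          _ = (nb G R v).card * ⌊C0 * (K : ℝ)⌋₊ := by rw [Finset.sum_const, smul_eq_mul]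
          _ ≤ ⌊C0 * (K : ℝ)⌋₊ * ⌊C0 * (K : ℝ)⌋₊ := Nat.mul_le_mul_right _ (hfl v hv)
          _ = ⌊C0 * (K : ℝ)⌋₊ ^ 2 := (sq _).symm
      · refine le_trans (le_of_eq (?_ : _ = 0)) (Nat.zero_le _)
        rw [Finset.card_eq_zero, Finset.filter_eq_empty_iff]
        intro u _
        simp only [S, if_neg hv, not_not]
        exact Finset.disjoint_empty_left _) (by
      have h1 : ((⌊C0 * (K : ℝ)⌋₊ ^ 2 : ℕ) : ℝ) ≤ (C0 * K + 1) ^ 2 := by
        push_cast
        apply pow_le_pow_left₀ (Nat.cast_nonneg _)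
        have := Nat.floor_le (a := C0 * (K : ℝ)) (by positivity)
        linarith
      have h2 : 4 * q * ((⌊C0 * (K : ℝ)⌋₊ ^ 2 : ℕ) : ℝ) ≤ 4 * q * (C0 * K + 1) ^ 2 :=
        mul_le_mul_of_nonneg_left h1 (by positivity)
      linarith) (by
      have h1 : 4 * q * 1 ≤ 4 * q * (C0 * K + 1) ^ 2 :=
        mul_le_mul_of_nonneg_left hsq (by positivity)
      linarith)
  exact ⟨x, fun v hv t => (hPd v x).1 (hx v) hv t⟩

end Pool.Agent.H97.PK
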