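import Mathlib

/-!
# Project PK (MP_6af60b_co), part (4a), (4b): the dense model

`dense_model`: if `B(S x T) >= (a - R)(S x T) - nu K^2` for all rectangles, with `0 <= B <= 1` and
`R >= 0`, then there is `0 <= b <= B` with the same lower bound and with the upper bound
`b(S x T) <= a |S| |T|`, both up to `del K^2`.
-/

set_option autoImplicit false

open Finset

namespace Pool.Agent.H97.PK

/-- Minimax on a box. -/
theorem box_minimax {Ω J : Type} [Fintype Ω] [Fintype J] (B : Ω → ℝ) (hB : ∀ x, 0 ≤ B x)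
    (φ : J → Ω → ℝ) (c : J → ℝ)
    (h : ∀ y : J → ℝ, (∀ j, 0 ≤ y j) → ∑ j, y j = 1 → ∃ b : Ω → ℝ, (∀ x, 0 ≤ b x ∧ b x ≤ B x) ∧
      ∑ j, y j * ∑ x, φ j x * b x ≤ ∑ j, y j * c j) :
    ∃ b : Ω → ℝ, (∀ x, 0 ≤ b x ∧ b x ≤ B x) ∧ ∀ j, ∑ x, φ j x * b x ≤ c j := by
  classical
  by_contra! hcon
  let X : Set (Ω → ℝ) := {b | ∀ x, 0 ≤ b x ∧ b x ≤ B x}
  let Y : Set (J → ℝ) := {y | (∀ j, 0 ≤ y j) ∧ ∑ j, y j = 1}
  let F : (Ω → ℝ) → (J → ℝ) → ℝ := fun b y => ∑ j, y j * (∑ x, φ j x * b x - c j)
  have hFx : ∀ y, Continuous (fun b => F b y) := fun y => by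
    simp only [F]; fun_prop
  have hFy : ∀ b, Continuous (fun y => F b y) := fun b => by
    simp only [F]; fun_prop
  have hX : X = Set.Icc (0 : Ω → ℝ) B := by
    ext b
    simp only [X, Set.mem_ofPred_eq, Set.mem_Icc, Pi.le_def, Pi.zero_apply]
    exact forall_and
  have hXcomp : IsCompact X := hX ▸ isCompact_Icc
  have hXconv : Convex ℝ X := hX ▸ convex_Icc _ _
  have hXne : X.Nonempty := ⟨0, fun x => ⟨le_rfl, hB x⟩⟩
  have hYconv : Convex ℝ Y := by
    intro y hy y' hy' a b ha hb hab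
    refine ⟨fun j => ?_, ?_⟩
    · simp only [Pi.add_apply, Pi.smul_apply, smul_eq_mul]
      exact add_nonneg (mul_nonneg ha (hy.1 j)) (mul_nonneg hb (hy'.1 j))
    · simp only [Pi.add_apply, Pi.smul_apply, smul_eq_mul]
      rw [Finset.sum_add_distrib, ← Finset.mul_sum, ← Finset.mul_sum, hy.2, hy'.2]
      linarith
  have hcov : X ⊆ ⋃ y ∈ Y, {b | 0 < F b y} := by
    intro b hb
    obtain ⟨j, hj⟩ := hcon b hb
    simp only [Set.mem_iUnion, Set.mem_ofPred_eq]
    refine ⟨Pi.single j 1, ⟨fun i => ?_, ?_⟩, ?_⟩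
    · by_cases hi : i = j
      · subst hi; simp
      · simp [hi]
    · rw [Finset.sum_pi_single']; simp
    · simp only [F]
      rw [Finset.sum_eq_single j (fun i _ hi => by simp [hi]) (by simp)]
      simp only [Pi.single_eq_same, one_mul]
      linarith
  obtain ⟨s, hsK, hsf, hs⟩ := hXcomp.elim_finite_subcover_image
    (fun y _ => isOpen_lt continuous_const (hFx y)) hcov
  have hFlx : ∀ (a b : ℝ) (u u' : Ω → ℝ) (y : J → ℝ), a + b = 1 →
      F (a • u + b • u') y = a * F u y + b * F u' y := by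
    intro a b u u' y hab
    simp only [F, Pi.add_apply, Pi.smul_apply, smul_eq_mul, Finset.mul_sum]
    rw [← Finset.sum_add_distrib]
    refine Finset.sum_congr rfl fun j _ => ?_
    have h1 : ∑ x, φ j x * (a * u x + b * u' x)
        = a * ∑ x, φ j x * u x + b * ∑ x, φ j x * u' x := by
      rw [Finset.mul_sum, Finset.mul_sum, ← Finset.sum_add_distrib]
      exact Finset.sum_congr rfl fun x _ => by ring
    rw [h1]
    obtain rfl : b = 1 - a := by linarith
    ring
  have hFly : ∀ (a b : ℝ) (u : Ω → ℝ) (y y' : J → ℝ),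
      F u (a • y + b • y') = a * F u y + b * F u y' := by
    intro a b u y y'
    simp only [F, Pi.add_apply, Pi.smul_apply, smul_eq_mul, Finset.mul_sum]
    rw [← Finset.sum_add_distrib]
    exact Finset.sum_congr rfl fun j _ => by ring
  have key := Sion.exists_lt_iInf_of_lt_iInf_of_finite (X := X) (Y := Y) (f := F) hXne hXcomp
    (fun y _ => (hFx y).lowerSemicontinuous.lowerSemicontinuousOn X)
    (fun y _ => by
      refine ConvexOn.quasiconvexOn ⟨hXconv, ?_⟩
      intro π _ π' _ a b _ _ hab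
      simp only [smul_eq_mul]
      exact (hFlx a b π π' y hab).le)
    hYconv
    (fun π _ => (hFy π).upperSemicontinuous.upperSemicontinuousOn Y)
    (fun π _ => by
      refine ConcaveOn.quasiconcaveOn ⟨hYconv, ?_⟩
      intro y _ y' _ a b _ _ _
      simp only [smul_eq_mul]
      exact (hFly a b π y y').ge)
    hXconv hsf hsK (t := 0)
    (fun π hπ => by
      have := hs hπ
      simp only [Set.mem_iUnion, Set.mem_ofPred_eq] at this
      obtain ⟨y, hy, hlt⟩ := this
      exact ⟨y, hy, hlt⟩)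
  obtain ⟨y0, hy0, hlt⟩ := key
  obtain ⟨b, hb1, hb2⟩ := h y0 hy0.1 hy0.2
  have h1 := hlt b hb1
  have h2 : F b y0 = ∑ j, y0 j * ∑ x, φ j x * b x - ∑ j, y0 j * c j := by
    simp only [F, mul_sub, Finset.sum_sub_distrib]
  rw [h2] at h1
  linarith

/-- Maurey's lemma (weighted): a convex combination of vectors with entries in `[-1, 1]` is close
to an average of `m` of them. -/
theorem maurey {Ω J : Type} [Fintype Ω] [Fintype J] (w : Ω → ℝ) (hw : ∀ x, 0 ≤ w x)
    (v : J → Ω → ℝ) (hv : ∀ j x, |v j x| ≤ 1) (y : J → ℝ) (hy : ∀ j, 0 ≤ y j)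
    (hy1 : ∑ j, y j = 1) (m : ℕ) :
    ∃ t : Fin m → J, ∑ x, w x * (∑ k, v (t k) x - m * ∑ j, y j * v j x) ^ 2
      ≤ m * ∑ x, w x := by
  classical
  induction m with
  | zero => exact ⟨Fin.elim0, by simp⟩
  | succ m ih =>
    obtain ⟨t, ht⟩ := ih
    set V : Ω → ℝ := fun x => ∑ j, y j * v j x with hV
    set A : Ω → ℝ := fun x => ∑ k, v (t k) x - m * V x with hA
    have hex : ∃ j, ∑ x, w x * (A x + (v j x - V x)) ^ 2 ≤ (m + 1) * ∑ x, w x := by
      by_contra! hcon
      have h1 : ∑ j, y j * ∑ x, w x * (A x + (v j x - V x)) ^ 2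
          ≤ ∑ x, w x * A x ^ 2 + ∑ x, w x := by
        have h2 : ∀ x, ∑ j, y j * (w x * (A x + (v j x - V x)) ^ 2)
            = w x * A x ^ 2 + w x * (∑ j, y j * v j x ^ 2 - V x ^ 2) := by
          intro x
          have h3 : ∀ j, y j * (w x * (A x + (v j x - V x)) ^ 2)
              = w x * (A x - V x) ^ 2 * y j + 2 * w x * (A x - V x) * (y j * v j x)
                + w x * (y j * v j x ^ 2) := fun j => by ring
          simp only [h3, Finset.sum_add_distrib, ← Finset.mul_sum, hy1]
          have h4 : ∑ j, y j * v j x = V x := rfl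
          rw [h4]
          ring
        have h5 : ∑ j, y j * ∑ x, w x * (A x + (v j x - V x)) ^ 2
            = ∑ x, ∑ j, y j * (w x * (A x + (v j x - V x)) ^ 2) := by
          rw [Finset.sum_comm]
          exact Finset.sum_congr rfl fun j _ => Finset.mul_sum _ _ _
        rw [h5]
        simp only [h2]
        rw [Finset.sum_add_distrib]
        gcongr with x
        have h6 : ∑ j, y j * v j x ^ 2 ≤ 1 := by
          rw [← hy1]
          refine Finset.sum_le_sum fun j _ => ?_
          have h7 : v j x ^ 2 ≤ 1 := by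
            rw [← sq_abs]
            exact pow_le_one₀ (abs_nonneg _) (hv j x)
          nlinarith [hy j]
        nlinarith [hw x, sq_nonneg (V x), mul_nonneg (hw x) (sq_nonneg (V x))]
      have hW : 0 ≤ ∑ x, w x := Finset.sum_nonneg fun x _ => hw x
      have h8 : (m + 1) * ∑ x, w x < ∑ j, y j * ∑ x, w x * (A x + (v j x - V x)) ^ 2 := by
        obtain ⟨j0, hj0⟩ : ∃ j, 0 < y j := by
          by_contra! hn
          have : ∑ j, y j ≤ 0 := Finset.sum_nonpos fun j _ => hn j
          linarith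
        calc (m + 1) * ∑ x, w x = ∑ j, y j * ((m + 1) * ∑ x, w x) := by
              rw [← Finset.sum_mul, hy1, one_mul]
          _ < _ := by
              refine Finset.sum_lt_sum (fun j _ => ?_) ⟨j0, Finset.mem_univ _, ?_⟩
              · exact mul_le_mul_of_nonneg_left (hcon j).le (hy j)
              · exact mul_lt_mul_of_pos_left (hcon j0) hj0
      have h9 : ∑ x, w x * A x ^ 2 ≤ m * ∑ x, w x := ht
      nlinarith
    obtain ⟨j, hj⟩ := hex
    refine ⟨Fin.cons j t, ?_⟩
    push_cast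
    refine le_trans (le_of_eq ?_) hj
    refine Finset.sum_congr rfl fun x _ => ?_
    rw [Fin.sum_univ_succ]
    simp only [Fin.cons_zero, Fin.cons_succ, hA, hV]
    ring

/-- Sum over blocks. -/
theorem sum_blocks {ι κ Λ : Type} [Fintype ι] [Fintype κ] [Fintype Λ] [DecidableEq Λ]
    (ρ : ι → Λ) (γ : κ → Λ) (F : Λ → Λ → ℝ) (X : ι → κ → ℝ) :
    ∑ i, ∑ j, F (ρ i) (γ j) * X i j
      = ∑ α, ∑ β, F α β * ∑ i ∈ univ.filter (fun i => ρ i = α),
          ∑ j ∈ univ.filter (fun j => γ j = β), X i j := by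
  have h1 : ∀ α, ∑ β, F α β * ∑ i ∈ univ.filter (fun i => ρ i = α),
      ∑ j ∈ univ.filter (fun j => γ j = β), X i j
      = ∑ i ∈ univ.filter (fun i => ρ i = α), ∑ j, F α (γ j) * X i j := by
    intro α
    simp only [Finset.mul_sum]
    rw [Finset.sum_comm]
    refine Finset.sum_congr rfl fun i _ => ?_
    rw [← Finset.sum_fiberwise univ γ (fun j => F α (γ j) * X i j)]
    refine Finset.sum_congr rfl fun β _ => ?_
    refine Finset.sum_congr rfl fun j hj => ?_
    rw [(Finset.mem_filter.1 hj).2]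
  simp only [h1]
  rw [← Finset.sum_fiberwise univ ρ (fun i => ∑ j, F (ρ i) (γ j) * X i j)]
  refine Finset.sum_congr rfl fun α _ => ?_
  refine Finset.sum_congr rfl fun i hi => ?_
  rw [(Finset.mem_filter.1 hi).2]

/-- The dense model. -/
theorem dense_model (C δ : ℝ) (_hC : 0 ≤ C) (hδ : 0 < δ) : ∃ ν : ℝ, 0 < ν ∧
    ∀ {ι κ : Type} [Fintype ι] [Fintype κ] (K : ℝ) (B R : ι → κ → ℝ) (a : ℝ),
      (Fintype.card ι : ℝ) = K → (Fintype.card κ : ℝ) = K → 0 ≤ a → a ≤ 1 →
      (∀ i j, 0 ≤ B i j ∧ B i j ≤ 1) → (∀ i j, 0 ≤ R i j) → ∑ i, ∑ j, R i j ≤ C * K ^ 2 →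
      (∀ (S : Finset ι) (T : Finset κ), ∑ i ∈ S, ∑ j ∈ T, (a - R i j)
        ≤ ∑ i ∈ S, ∑ j ∈ T, B i j + ν * K ^ 2) →
      ∃ b : ι → κ → ℝ, (∀ i j, 0 ≤ b i j ∧ b i j ≤ B i j) ∧
        (∀ (S : Finset ι) (T : Finset κ), ∑ i ∈ S, ∑ j ∈ T, b i j
          ≤ a * (#S : ℝ) * (#T : ℝ) + δ * K ^ 2) ∧
        (∀ (S : Finset ι) (T : Finset κ), ∑ i ∈ S, ∑ j ∈ T, (a - R i j)
          ≤ ∑ i ∈ S, ∑ j ∈ T, b i j + δ * K ^ 2) := by
  classical
  obtain ⟨m, hm⟩ := exists_nat_gt ((4 * (1 + C) / δ) ^ 2)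
  have hm0 : (0 : ℝ) < m := lt_of_le_of_lt (sq_nonneg _) hm
  have hm1 : 0 < m := by exact_mod_cast hm0
  have hsm : 4 * (1 + C) / δ ≤ Real.sqrt m := Real.le_sqrt_of_sq_le hm.le
  refine ⟨δ / (2 * 4 ^ m), by positivity, ?_⟩
  intro ι κ _ _ K B R a hι hκ ha ha1 hB hR hRs hI
  set ν : ℝ := δ / (2 * 4 ^ m) with hν
  have hK0 : 0 ≤ K := hι ▸ Nat.cast_nonneg _
  -- the constraints
  let J := Bool × Finset ι × Finset κ
  let ind : J → ι × κ → ℝ := fun t x => if x.1 ∈ t.2.1 ∧ x.2 ∈ t.2.2 then 1 else 0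
  let sg : J → ℝ := fun t => if t.1 then 1 else -1
  -- `sg = 1`: upper constraint
  have hind : ∀ (t : J) (f : ι → κ → ℝ), ∑ x : ι × κ, ind t x * f x.1 x.2
      = ∑ i ∈ t.2.1, ∑ j ∈ t.2.2, f i j := by
    intro t f
    rw [Fintype.sum_prod_type]
    simp only [ind, ite_mul, one_mul, zero_mul]
    rw [← Finset.sum_filter_add_sum_filter_not univ (fun i => i ∈ t.2.1)]
    have h1 : univ.filter (fun i => i ∈ t.2.1) = t.2.1 := by ext; simp
    have h2 : univ.filter (fun j => j ∈ t.2.2) = t.2.2 := by ext; simp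
    have h3 : ∑ i ∈ univ.filter (fun i => i ∉ t.2.1),
        ∑ j, (if i ∈ t.2.1 ∧ j ∈ t.2.2 then f i j else 0) = 0 := by
      refine Finset.sum_eq_zero fun i hi => Finset.sum_eq_zero fun j _ => ?_
      rw [if_neg]
      exact fun h => (Finset.mem_filter.1 hi).2 h.1
    rw [h3, add_zero, h1]
    refine Finset.sum_congr rfl fun i hi => ?_
    rw [← Finset.sum_filter_add_sum_filter_not univ (fun j => j ∈ t.2.2), h2]
    have h4 : ∑ j ∈ univ.filter (fun j => j ∉ t.2.2),
        (if i ∈ t.2.1 ∧ j ∈ t.2.2 then f i j else 0) = 0 := by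
      refine Finset.sum_eq_zero fun j hj => ?_
      rw [if_neg]
      exact fun h => (Finset.mem_filter.1 hj).2 h.2
    rw [h4, add_zero]
    exact Finset.sum_congr rfl fun j hj => if_pos ⟨hi, hj⟩
  let c : J → ℝ := fun t => sg t * a * (∑ x, ind t x)
    + (if t.1 then 0 else ∑ x, ind t x * R x.1 x.2) + δ * K ^ 2
  obtain ⟨b, hb1, hb2⟩ := box_minimax (Ω := ι × κ) (J := J) (fun x => B x.1 x.2)
    (fun x => (hB x.1 x.2).1) (fun t x => sg t * ind t x) c (by
    intro y hy hy1
    -- the weight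
    let w : ι × κ → ℝ := fun x => 1 + R x.1 x.2
    have hw : ∀ x, 0 ≤ w x := fun x => by
      have := hR x.1 x.2
      simp only [w]; linarith
    have hW : ∑ x, w x ≤ (1 + C) * K ^ 2 := by
      simp only [w, Finset.sum_add_distrib]
      rw [Fintype.sum_prod_type (fun x : ι × κ => R x.1 x.2)]
      simp only [Finset.sum_const, Finset.card_univ, Fintype.card_prod, nsmul_eq_mul, mul_one,
        Nat.cast_mul, hι, hκ]
      nlinarith
    let v : J → ι × κ → ℝ := fun t x => -(sg t * ind t x)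
    have hv : ∀ t x, |v t x| ≤ 1 := by
      intro t x
      simp only [v, sg, ind]
      split_ifs <;> simp
    let D : ι × κ → ℝ := fun x => ∑ t, y t * v t x
    obtain ⟨t, ht⟩ := maurey w hw v hv y hy hy1 m
    let D' : ι × κ → ℝ := fun x => (∑ k, v (t k) x) / m
    have hdist : ∑ x, w x * |D' x - D x| ≤ (1 + C) * K ^ 2 / Real.sqrt m := by
      have h1 : ∑ x, w x * (D' x - D x) ^ 2 ≤ (∑ x, w x) / m := by
        rw [le_div_iff₀ hm0]
        have h2 : ∑ x, w x * (D' x - D x) ^ 2 * m * m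
            = ∑ x, w x * (∑ k, v (t k) x - m * ∑ j, y j * v j x) ^ 2 := by
          refine Finset.sum_congr rfl fun x _ => ?_
          simp only [D', D]
          field_simp
        have h3 : (∑ x, w x * (D' x - D x) ^ 2) * m * m ≤ m * ∑ x, w x := by
          rw [Finset.sum_mul, Finset.sum_mul, h2]
          exact ht
        nlinarith
      have h4 : (∑ x, w x * |D' x - D x|) ^ 2 ≤ (∑ x, w x) * ∑ x, w x * (D' x - D x) ^ 2 := by
        have h5 := Finset.sum_mul_sq_le_sq_mul_sq univ (fun x => Real.sqrt (w x))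
          (fun x => Real.sqrt (w x) * |D' x - D x|)
        have h6 : ∀ x, Real.sqrt (w x) * (Real.sqrt (w x) * |D' x - D x|) = w x * |D' x - D x| := by
          intro x
          rw [← mul_assoc, Real.mul_self_sqrt (hw x)]
        have h7 : ∀ x, (Real.sqrt (w x) * |D' x - D x|) ^ 2 = w x * (D' x - D x) ^ 2 := by
          intro x
          rw [mul_pow, Real.sq_sqrt (hw x), sq_abs]
        simp only [h6, h7, Real.sq_sqrt (hw _)] at h5
        exact h5
      have hW0 : 0 ≤ ∑ x, w x := Finset.sum_nonneg fun x _ => hw x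
      have h8 : (∑ x, w x * |D' x - D x|) ^ 2 ≤ ((∑ x, w x) / Real.sqrt m) ^ 2 := by
        rw [div_pow, Real.sq_sqrt hm0.le]
        refine h4.trans ?_
        rw [sq, mul_div_assoc]
        exact mul_le_mul_of_nonneg_left h1 hW0
      have h9 := abs_le_of_sq_le_sq' h8 (by positivity)
      refine h9.2.trans ?_
      gcongr
    have hdist2 : ∑ x, w x * |D' x - D x| ≤ δ / 4 * K ^ 2 := by
      refine hdist.trans ?_
      rw [div_le_iff₀ (Real.sqrt_pos.2 hm0)]
      have h1 : 4 * (1 + C) ≤ Real.sqrt m * δ := by rwa [div_le_iff₀ hδ] at hsm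
      nlinarith [sq_nonneg K]
    -- the lower bound for `B` on the positive part of `D'`
    let F : (Fin m → Bool × Bool) → ℝ := fun u =>
      max ((∑ k, -(sg (t k) * (if (u k).1 = true ∧ (u k).2 = true then 1 else 0))) / m) 0
    let ρ : ι → Fin m → Bool := fun i k => decide (i ∈ (t k).2.1)
    let γ : κ → Fin m → Bool := fun j k => decide (j ∈ (t k).2.2)
    let G : (Fin m → Bool) → (Fin m → Bool) → ℝ := fun α β => F fun k => (α k, β k)
    have hG : ∀ x : ι × κ, max (D' x) 0 = G (ρ x.1) (γ x.2) := by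
      intro x
      simp only [G, F, D', v, ind, ρ, γ, decide_eq_true_eq]
    have hG0 : ∀ α β, 0 ≤ G α β := fun α β => le_max_right _ _
    have hG1 : ∀ α β, G α β ≤ 1 := by
      intro α β
      simp only [G, F]
      refine max_le ?_ zero_le_one
      rw [div_le_one hm0]
      calc (∑ k : Fin m, -(sg (t k) * (if α k = true ∧ β k = true then (1 : ℝ) else 0)))
          ≤ ∑ _k : Fin m, (1 : ℝ) := by
            refine Finset.sum_le_sum fun k _ => ?_
            simp only [sg]
            split_ifs <;> norm_num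
        _ = m := by simp
    have hlow : ∑ x : ι × κ, max (D' x) 0 * (B x.1 x.2 - (a - R x.1 x.2))
        ≥ -(δ / 2 * K ^ 2) := by
      rw [Fintype.sum_prod_type]
      simp only [hG]
      rw [sum_blocks ρ γ G (fun i j => B i j - (a - R i j))]
      have h1 : ∀ α β, -(ν * K ^ 2) ≤ G α β * ∑ i ∈ univ.filter (fun i => ρ i = α),
          ∑ j ∈ univ.filter (fun j => γ j = β), (B i j - (a - R i j)) := by
        intro α β
        have h2 := hI (univ.filter (fun i => ρ i = α)) (univ.filter (fun j => γ j = β))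
        have h3 : ∑ i ∈ univ.filter (fun i => ρ i = α),
            ∑ j ∈ univ.filter (fun j => γ j = β), (B i j - (a - R i j)) ≥ -(ν * K ^ 2) := by
          simp only [Finset.sum_sub_distrib] at h2 ⊢
          linarith
        have h4 : 0 ≤ ν * K ^ 2 := by positivity
        have h5 := mul_le_mul_of_nonneg_left h3 (hG0 α β)
        nlinarith [hG1 α β, hG0 α β]
      have h6 : ∑ α : Fin m → Bool, ∑ β : Fin m → Bool, -(ν * K ^ 2) = -(δ / 2 * K ^ 2) := by
        simp only [Finset.sum_const, Finset.card_univ, Fintype.card_pi, Fintype.card_bool,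
          Finset.prod_const, Fintype.card_fin, nsmul_eq_mul]
        push_cast
        rw [hν]
        have h7 : (4 : ℝ) ^ m = 2 ^ m * 2 ^ m := by rw [← mul_pow]; norm_num
        rw [h7]
        field_simp
      rw [ge_iff_le, ← h6]
      exact Finset.sum_le_sum fun α _ => Finset.sum_le_sum fun β _ => h1 α β
    -- the choice of `b`
    refine ⟨fun x => if 0 < D x then B x.1 x.2 else 0, fun x => ?_, ?_⟩
    · dsimp only
      split_ifs
      · exact ⟨(hB x.1 x.2).1, le_rfl⟩
      · exact ⟨le_rfl, (hB x.1 x.2).1⟩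
    · -- left side
      have hL : ∑ j, y j * ∑ x, sg j * ind j x * (if 0 < D x then B x.1 x.2 else 0)
          = -∑ x : ι × κ, B x.1 x.2 * max (D x) 0 := by
        simp only [Finset.mul_sum]
        rw [Finset.sum_comm, ← Finset.sum_neg_distrib]
        refine Finset.sum_congr rfl fun x _ => ?_
        have h1 : ∑ j, y j * (sg j * ind j x * (if 0 < D x then B x.1 x.2 else 0))
            = -(D x) * (if 0 < D x then B x.1 x.2 else 0) := by
          simp only [D, v]
          rw [← Finset.sum_neg_distrib, Finset.sum_mul]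
          exact Finset.sum_congr rfl fun j _ => by ring
        rw [h1]
        split_ifs with hD
        · rw [max_eq_left hD.le]; ring
        · rw [max_eq_right (not_lt.1 hD)]; ring
      -- right side
      have hRt : ∑ j, y j * c j = -(a * ∑ x, D x)
          + ∑ x : ι × κ, (∑ j, y j * (if j.1 then 0 else ind j x)) * R x.1 x.2 + δ * K ^ 2 := by
        have h1 : ∀ j, y j * c j = a * (∑ x, y j * (sg j * ind j x))
            + ∑ x : ι × κ, y j * (if j.1 then 0 else ind j x) * R x.1 x.2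
            + y j * (δ * K ^ 2) := by
          intro j
          have h2 : (if j.1 then 0 else ∑ x : ι × κ, ind j x * R x.1 x.2)
              = ∑ x : ι × κ, (if j.1 then 0 else ind j x) * R x.1 x.2 := by
            split_ifs with hj
            · simp
            · rfl
          simp only [c]
          rw [h2, mul_add, mul_add, Finset.mul_sum, Finset.mul_sum, Finset.mul_sum]
          congr 1
          congr 1
          · rw [Finset.mul_sum]
            exact Finset.sum_congr rfl fun x _ => by ring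
          · exact Finset.sum_congr rfl fun x _ => by ring
        simp only [h1, Finset.sum_add_distrib]
        rw [← Finset.sum_mul, hy1, one_mul, ← Finset.mul_sum, Finset.sum_comm]
        rw [Finset.sum_comm (s := univ) (t := univ)
          (f := fun j x => y j * (if j.1 then 0 else ind j x) * R x.1 x.2)]
        congr 1
        congr 1
        · rw [← mul_neg, ← Finset.sum_neg_distrib]
          congr 1
          refine Finset.sum_congr rfl fun x _ => ?_
          simp only [D, v]
          rw [← Finset.sum_neg_distrib]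
          exact Finset.sum_congr rfl fun j _ => by ring
        · refine Finset.sum_congr rfl fun x _ => ?_
          rw [Finset.sum_mul]
      dsimp only
      rw [hL, hRt]
      -- pointwise bound
      have hDL : ∀ x, max (D x) 0 ≤ ∑ j, y j * (if j.1 then 0 else ind j x) := by
        intro x
        have hi0 : ∀ j, 0 ≤ ind j x := by
          intro j
          simp only [ind]
          split_ifs <;> norm_num
        refine max_le ?_ ?_
        · simp only [D]
          refine Finset.sum_le_sum fun j _ => mul_le_mul_of_nonneg_left ?_ (hy j)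
          simp only [v, sg]
          split_ifs
          · linarith [hi0 j]
          · linarith
        · refine Finset.sum_nonneg fun j _ => mul_nonneg (hy j) ?_
          split_ifs
          · exact le_rfl
          · exact hi0 j
      have hpt : ∀ x : ι × κ, max (D' x) 0 * (B x.1 x.2 - (a - R x.1 x.2))
          ≤ B x.1 x.2 * max (D x) 0 - a * D x
            + (∑ j, y j * (if j.1 then 0 else ind j x)) * R x.1 x.2
            + 2 * (w x * |D' x - D x|) := by
        intro x
        have h1 := hB x.1 x.2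
        have h2 := hR x.1 x.2
        have h3 : |max (D' x) 0 - max (D x) 0| ≤ |D' x - D x| := by
          have := abs_max_sub_max_le_abs (D' x) (D x) 0
          exact this
        have h4 := abs_le.1 h3
        have h5 : D' x ≤ max (D' x) 0 := le_max_left _ _
        have h6 := abs_le.1 (le_refl |D' x - D x|)
        have h7 := hDL x
        have h8 := abs_nonneg (D' x - D x)
        have h9 : max (D' x) 0 ≤ max (D x) 0 + |D' x - D x| := by linarith [h4.2]
        have e1 : max (D' x) 0 * B x.1 x.2 ≤ B x.1 x.2 * max (D x) 0 + |D' x - D x| := by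
          nlinarith
        have e2 : a * D x ≤ a * max (D' x) 0 + |D' x - D x| := by
          have : D x ≤ max (D' x) 0 + |D' x - D x| := by linarith [h6.1]
          nlinarith
        have e3 : max (D' x) 0 * R x.1 x.2
            ≤ (∑ j, y j * (if j.1 then 0 else ind j x)) * R x.1 x.2
              + R x.1 x.2 * |D' x - D x| := by
          have h10 := mul_le_mul_of_nonneg_right (h9.trans (add_le_add_left h7 _)) h2
          linarith
        simp only [w]
        nlinarith [mul_nonneg h2 h8]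
      have hsum := Finset.sum_le_sum fun (x : ι × κ) (_ : x ∈ univ) => hpt x
      simp only [Finset.sum_add_distrib, Finset.sum_sub_distrib, ← Finset.mul_sum] at hsum
      linarith)
  refine ⟨fun i j => b (i, j), fun i j => hb1 (i, j), fun S T => ?_, fun S T => ?_⟩
  · have h1 := hb2 (true, S, T)
    have h2 := hind (true, S, T) (fun i j => b (i, j))
    have h3 := hind (true, S, T) (fun _ _ => 1)
    simp only [sg, c, if_true, one_mul, add_zero, mul_one] at h1 h2 h3
    have h4 : ∑ i ∈ S, ∑ j ∈ T, (1 : ℝ) = (#S : ℝ) * (#T : ℝ) := by simp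
    rw [h4] at h3
    rw [← h2]
    refine h1.trans (le_of_eq ?_)
    rw [h3]
    ring
  · have h1 := hb2 (false, S, T)
    have h2 := hind (false, S, T) (fun i j => b (i, j))
    have h3 := hind (false, S, T) (fun _ _ => 1)
    have h5 := hind (false, S, T) R
    simp only [sg, c, Bool.false_eq_true, if_false, mul_one] at h1 h2 h3 h5
    have h6 : ∑ x : ι × κ, -1 * ind (false, S, T) x * b x
        = -∑ x : ι × κ, ind (false, S, T) x * b (x.1, x.2) := by
      rw [← Finset.sum_neg_distrib]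
      exact Finset.sum_congr rfl fun x _ => by ring
    rw [h6, h2, h3, h5] at h1
    have h4 : ∑ i ∈ S, ∑ j ∈ T, (a - R i j) = a * ∑ i ∈ S, ∑ j ∈ T, (1 : ℝ)
        - ∑ i ∈ S, ∑ j ∈ T, R i j := by
      simp only [Finset.sum_sub_distrib, Finset.mul_sum, mul_one]
    rw [h4]
    linarith

/-- Parts (4a) and (4b): the dense model with control of every single line. -/
theorem dense (a0 δ : ℝ) (ha0 : 0 < a0) (hδ : 0 < δ) : ∃ ν : ℝ, 0 < ν ∧
    ∀ {ι κ : Type} [Fintype ι] [Fintype κ] (K : ℝ) (B R : ι → κ → ℝ) (a η : ℝ),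
      (Fintype.card ι : ℝ) = K → (Fintype.card κ : ℝ) = K → a0 ≤ a → a ≤ 1 → η ≤ 1 →
      (∀ i j, 0 ≤ B i j ∧ B i j ≤ 1) → (∀ i j, 0 ≤ R i j) →
      (∀ i, ∑ j, R i j ≤ η * K) → (∀ j, ∑ i, R i j ≤ η * K) →
      (∀ (S : Finset ι) (T : Finset κ), ∑ i ∈ S, ∑ j ∈ T, (a - R i j)
        ≤ ∑ i ∈ S, ∑ j ∈ T, B i j + ν * K ^ 2) →
      (∀ i, a * K - ∑ j, R i j ≤ ∑ j, B i j + ν * K) →
      (∀ j, a * K - ∑ i, R i j ≤ ∑ i, B i j + ν * K) →
      ∃ m : ι → κ → ℝ, (∀ i j, 0 ≤ m i j ∧ a * m i j ≤ B i j) ∧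
        (∀ (S : Finset ι) (T : Finset κ), ∑ i ∈ S, ∑ j ∈ T, m i j
          ≤ (#S : ℝ) * (#T : ℝ) + δ * K ^ 2) ∧
        (∀ (S : Finset ι) (T : Finset κ), ∑ i ∈ S, ∑ j ∈ T, (1 - R i j / a)
          ≤ ∑ i ∈ S, ∑ j ∈ T, m i j + δ * K ^ 2) ∧
        (∀ i, (1 - η / a - δ) * K ≤ ∑ j, m i j) ∧
        (∀ j, (1 - η / a - δ) * K ≤ ∑ i, m i j) := by
  classical
  -- small parameters
  obtain ⟨d, hd0, hdδ, hd1⟩ : ∃ d : ℝ, 0 < d ∧ d ≤ δ ∧ d ≤ 1 :=
    ⟨min δ 1, lt_min hδ one_pos, min_le_left _ _, min_le_right _ _⟩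
  set d1 : ℝ := a0 ^ 2 * d ^ 2 / 8 with hd1def
  have hd1pos : 0 < d1 := by positivity
  obtain ⟨ν1, hν1, hmod⟩ := dense_model 1 d1 zero_le_one hd1pos
  refine ⟨min ν1 (a0 * d), lt_min hν1 (by positivity), ?_⟩
  intro ι κ _ _ K B R a η hι hκ ha ha1 hη hB hR hRr hRc hI hIr hIc
  set ν := min ν1 (a0 * d) with hν
  have hνν1 : ν ≤ ν1 := min_le_left _ _
  have hνd : ν ≤ a0 * d := min_le_right _ _
  have hK0 : 0 ≤ K := hι ▸ Nat.cast_nonneg _
  have ha' : 0 < a := ha0.trans_le ha
  have ha01 : a0 ≤ 1 := ha.trans ha1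
  obtain ⟨b, hb1, hb2, hb3⟩ := hmod K B R a hι hκ ha'.le ha1 hB hR (by
    calc ∑ i, ∑ j, R i j ≤ ∑ _i : ι, η * K := Finset.sum_le_sum fun i _ => hRr i
      _ = K * (η * K) := by simp [hι]
      _ ≤ 1 * K ^ 2 := by nlinarith) (fun S T => (hI S T).trans (by gcongr))
  -- a general count of bad lines
  have hcount : ∀ n : ℝ, 0 ≤ n → n ≤ K → a * (d / 2) * K * n ≤ d1 * K ^ 2 →
      n / a ≤ d / 4 * K := by
    intro n hn hnK h
    rcases hK0.eq_or_lt with h0 | h0
    · have : n = 0 := by linarith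
      rw [this, ← h0]; simp
    · rw [div_le_iff₀ ha']
      have h1 : a * (d / 2) * n ≤ d1 * K := by
        have h2 : (a * (d / 2) * n) * K ≤ (d1 * K) * K := by nlinarith
        exact le_of_mul_le_mul_right h2 h0
      have h3 : d1 * K ≤ a ^ 2 * (d ^ 2 / 8) * K := by
        have : a0 ^ 2 ≤ a ^ 2 := pow_le_pow_left₀ ha0.le ha 2
        have h5 : d1 ≤ a ^ 2 * (d ^ 2 / 8) := by
          rw [hd1def]; nlinarith [sq_nonneg d]
        exact mul_le_mul_of_nonneg_right h5 hK0
      have h4 : (a * (d / 2)) * n ≤ (a * (d / 2)) * (d / 4 * K * a) := by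
        nlinarith
      exact le_of_mul_le_mul_left h4 (by positivity)
  let I0 : Finset ι := univ.filter fun i => ∑ j, b i j < (a - η - a * (d / 2)) * K
  let J0 : Finset κ := univ.filter fun j => ∑ i, b i j < (a - η - a * (d / 2)) * K
  have hI0 : (#I0 : ℝ) / a ≤ d / 4 * K := by
    apply hcount _ (Nat.cast_nonneg _) (by rw [← hι]; exact_mod_cast Finset.card_le_univ I0)
    have h1 := hb3 I0 univ
    have h2 : ∑ i ∈ I0, ∑ j, b i j ≤ ∑ i ∈ I0, (a - η - a * (d / 2)) * K :=
      Finset.sum_le_sum fun i hi => (Finset.mem_filter.1 hi).2.le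
    have h3 : ∑ i ∈ I0, ∑ j, (a - R i j) ≥ ∑ i ∈ I0, (a - η) * K := by
      refine Finset.sum_le_sum fun i _ => ?_
      rw [Finset.sum_sub_distrib]
      simp only [Finset.sum_const, Finset.card_univ, nsmul_eq_mul, hκ]
      linarith [hRr i]
    simp only [Finset.sum_const, nsmul_eq_mul] at h2 h3
    nlinarith
  have hJ0 : (#J0 : ℝ) / a ≤ d / 4 * K := by
    apply hcount _ (Nat.cast_nonneg _) (by rw [← hκ]; exact_mod_cast Finset.card_le_univ J0)
    have h1 := hb3 univ J0
    rw [Finset.sum_comm, Finset.sum_comm (f := fun i j => b i j)] at h1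
    have h2 : ∑ j ∈ J0, ∑ i, b i j ≤ ∑ j ∈ J0, (a - η - a * (d / 2)) * K :=
      Finset.sum_le_sum fun i hi => (Finset.mem_filter.1 hi).2.le
    have h3 : ∑ j ∈ J0, ∑ i, (a - R i j) ≥ ∑ j ∈ J0, (a - η) * K := by
      refine Finset.sum_le_sum fun j _ => ?_
      rw [Finset.sum_sub_distrib]
      simp only [Finset.sum_const, Finset.card_univ, nsmul_eq_mul, hι]
      linarith [hRc j]
    simp only [Finset.sum_const, nsmul_eq_mul] at h2 h3
    nlinarith
  let m : ι → κ → ℝ := fun i j => (if i ∈ I0 ∨ j ∈ J0 then B i j else b i j) / a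
  have hmb : ∀ i j, b i j / a ≤ m i j := by
    intro i j
    simp only [m]
    gcongr
    split_ifs
    · exact (hb1 i j).2
    · exact le_rfl
  have hmB : ∀ i j, 0 ≤ m i j ∧ a * m i j ≤ B i j := by
    intro i j
    refine ⟨(div_nonneg (hb1 i j).1 ha'.le).trans (hmb i j), ?_⟩
    simp only [m]
    rw [mul_div_cancel₀ _ ha'.ne']
    split_ifs
    · exact le_rfl
    · exact (hb1 i j).2
  refine ⟨m, hmB, ?_, ?_, ?_, ?_⟩
  · intro S T
    have h1 : ∀ i j, m i j ≤ b i j / a + (if i ∈ I0 then 1 / a else 0)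
        + (if j ∈ J0 then 1 / a else 0) := by
      intro i j
      have h2 : 0 ≤ b i j / a := div_nonneg (hb1 i j).1 ha'.le
      have h3 : B i j / a ≤ 1 / a := by gcongr; exact (hB i j).2
      have h4 : 0 < 1 / a := by positivity
      simp only [m]
      by_cases hi : i ∈ I0 <;> by_cases hj : j ∈ J0 <;> simp only [hi, hj, true_or, or_true,
        or_self, if_true, if_false] <;> linarith
    have h5 : ∑ i ∈ S, ∑ j ∈ T, m i j ≤ ∑ i ∈ S, ∑ j ∈ T, b i j / a
        + ∑ i ∈ S, ∑ j ∈ T, (if i ∈ I0 then 1 / a else 0)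
        + ∑ i ∈ S, ∑ j ∈ T, (if j ∈ J0 then 1 / a else 0) := by
      rw [← Finset.sum_add_distrib, ← Finset.sum_add_distrib]
      refine Finset.sum_le_sum fun i _ => ?_
      rw [← Finset.sum_add_distrib, ← Finset.sum_add_distrib]
      exact Finset.sum_le_sum fun j _ => h1 i j
    have hcS : (#S : ℝ) ≤ K := by rw [← hι]; exact_mod_cast Finset.card_le_univ S
    have hcT : (#T : ℝ) ≤ K := by rw [← hκ]; exact_mod_cast Finset.card_le_univ T
    have h6 : ∑ i ∈ S, ∑ j ∈ T, (if i ∈ I0 then 1 / a else 0) ≤ d / 4 * K * K := by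
      have h7 : ∑ i ∈ S, ∑ j ∈ T, (if i ∈ I0 then 1 / a else 0)
          = (#T : ℝ) * (#(S.filter (· ∈ I0)) / a) := by
        rw [Finset.sum_comm]
        simp only [← Finset.sum_filter, Finset.sum_const, nsmul_eq_mul]
        ring
      have h8 : (#(S.filter (· ∈ I0)) : ℝ) ≤ #I0 := by
        exact_mod_cast Finset.card_le_card (fun x hx => (Finset.mem_filter.1 hx).2)
      have h9 : (#(S.filter (· ∈ I0)) / a : ℝ) ≤ d / 4 * K :=
        (by gcongr : (#(S.filter (· ∈ I0)) / a : ℝ) ≤ #I0 / a).trans hI0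
      rw [h7, mul_comm]
      exact mul_le_mul h9 hcT (Nat.cast_nonneg _) (by positivity)
    have h6' : ∑ i ∈ S, ∑ j ∈ T, (if j ∈ J0 then 1 / a else 0) ≤ d / 4 * K * K := by
      have h7 : ∑ i ∈ S, ∑ j ∈ T, (if j ∈ J0 then 1 / a else 0)
          = (#S : ℝ) * (#(T.filter (· ∈ J0)) / a) := by
        simp only [← Finset.sum_filter, Finset.sum_const, nsmul_eq_mul]
        ring
      have h8 : (#(T.filter (· ∈ J0)) : ℝ) ≤ #J0 := by
        exact_mod_cast Finset.card_le_card (fun x hx => (Finset.mem_filter.1 hx).2)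
      have h9 : (#(T.filter (· ∈ J0)) / a : ℝ) ≤ d / 4 * K :=
        (by gcongr : (#(T.filter (· ∈ J0)) / a : ℝ) ≤ #J0 / a).trans hJ0
      rw [h7, mul_comm]
      exact mul_le_mul h9 hcS (Nat.cast_nonneg _) (by positivity)
    have h10 : ∑ i ∈ S, ∑ j ∈ T, b i j / a ≤ (#S : ℝ) * #T + d / 8 * K ^ 2 := by
      have h11 : ∑ i ∈ S, ∑ j ∈ T, b i j / a = (∑ i ∈ S, ∑ j ∈ T, b i j) / a := by
        simp only [Finset.sum_div]
      rw [h11, div_le_iff₀ ha']
      refine (hb2 S T).trans ?_
      have h12 : d1 ≤ d / 8 * a := by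
        rw [hd1def]
        have : a0 ^ 2 ≤ a := by nlinarith
        have hdd : d ^ 2 ≤ d := by nlinarith
        nlinarith [mul_le_mul this hdd (sq_nonneg d) ha'.le]
      nlinarith [sq_nonneg K]
    nlinarith [sq_nonneg K]
  · intro S T
    have h1 : ∑ i ∈ S, ∑ j ∈ T, (1 - R i j / a) = (∑ i ∈ S, ∑ j ∈ T, (a - R i j)) / a := by
      simp only [Finset.sum_div]
      refine Finset.sum_congr rfl fun i _ => Finset.sum_congr rfl fun j _ => ?_
      field_simp
    have h2 : (∑ i ∈ S, ∑ j ∈ T, b i j) / a ≤ ∑ i ∈ S, ∑ j ∈ T, m i j := by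
      simp only [Finset.sum_div]
      exact Finset.sum_le_sum fun i _ => Finset.sum_le_sum fun j _ => hmb i j
    rw [h1]
    have h3 : (∑ i ∈ S, ∑ j ∈ T, (a - R i j)) / a
        ≤ (∑ i ∈ S, ∑ j ∈ T, b i j + d1 * K ^ 2) / a := by
      gcongr
      exact hb3 S T
    have h4 : d1 * K ^ 2 / a ≤ δ * K ^ 2 := by
      rw [div_le_iff₀ ha']
      have h12 : d1 ≤ δ * a := by
        rw [hd1def]
        have : a0 ^ 2 ≤ a := by nlinarith
        have hdd : d ^ 2 ≤ d := by nlinarith
        nlinarith [mul_le_mul this hdd (sq_nonneg d) ha'.le]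
      nlinarith [sq_nonneg K]
    rw [add_div] at h3
    linarith
  · intro i
    by_cases hi : i ∈ I0
    · have h1 : ∑ j, m i j = (∑ j, B i j) / a := by
        simp only [m, hi, true_or, if_true, Finset.sum_div]
      rw [h1, le_div_iff₀ ha']
      have h2 := hIr i
      have h3 := hRr i
      have h4 : (1 - η / a - δ) * K * a = (a - η - δ * a) * K := by field_simp
      rw [h4]
      have h5 : ν * K ≤ δ * a * K := by
        refine mul_le_mul_of_nonneg_right (hνd.trans ?_) hK0
        nlinarith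
      nlinarith
    · have h1 : (a - η - a * (d / 2)) * K ≤ ∑ j, b i j := by
        by_contra! h
        exact hi (Finset.mem_filter.2 ⟨Finset.mem_univ _, h⟩)
      have h2 : (∑ j, b i j) / a ≤ ∑ j, m i j := by
        rw [Finset.sum_div]
        exact Finset.sum_le_sum fun j _ => hmb i j
      refine le_trans ?_ h2
      rw [le_div_iff₀ ha']
      have h4 : (1 - η / a - δ) * K * a = (a - η - δ * a) * K := by field_simp
      rw [h4]
      refine le_trans ?_ h1
      refine mul_le_mul_of_nonneg_right ?_ hK0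
      nlinarith
  · intro j
    by_cases hj : j ∈ J0
    · have h1 : ∑ i, m i j = (∑ i, B i j) / a := by
        simp only [m, hj, or_true, if_true, Finset.sum_div]
      rw [h1, le_div_iff₀ ha']
      have h2 := hIc j
      have h3 := hRc j
      have h4 : (1 - η / a - δ) * K * a = (a - η - δ * a) * K := by field_simp
      rw [h4]
      have h5 : ν * K ≤ δ * a * K := by
        refine mul_le_mul_of_nonneg_right (hνd.trans ?_) hK0
        nlinarith
      nlinarith
    · have h1 : (a - η - a * (d / 2)) * K ≤ ∑ i, b i j := by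
        by_contra! h
        exact hj (Finset.mem_filter.2 ⟨Finset.mem_univ _, h⟩)
      have h2 : (∑ i, b i j) / a ≤ ∑ i, m i j := by
        rw [Finset.sum_div]
        exact Finset.sum_le_sum fun i _ => hmb i j
      refine le_trans ?_ h2
      rw [le_div_iff₀ ha']
      have h4 : (1 - η / a - δ) * K * a = (a - η - δ * a) * K := by field_simp
      rw [h4]
      refine le_trans ?_ h1
      refine mul_le_mul_of_nonneg_right ?_ hK0
      nlinarith

end Pool.Agent.H97.PK
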