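import Pool.Agent.H97.PK.Dense
import Pool.Agent.H24.PK.Gale
import Pool.Agent.PK.Defs

/-!
# Project PK (MP_6af60b_co), parts (4c), (4d): the two-layer law
-/

set_option autoImplicit false

open Finset

namespace Pool.Agent.H97.PK

/-- The cut inequality in real numbers, `d <= c`. -/
theorem cut_aux {e a b c d z x δ : ℝ} (he : 0 ≤ e) (hp : 0 < 1 - 2 * e) (ha : 0 ≤ a) (hb : 0 ≤ b)
    (hd : 0 ≤ d) (hdc : d ≤ c) (hac : a + c ≤ 1) (hbd : b + d ≤ 1) (hδ : 0 ≤ δ) (hz0 : 0 ≤ z)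
    (hz1 : a * b - e * a - δ ≤ z) (hz2 : a * b - e * b - δ ≤ z)
    (hx1 : (1 - c) * (1 - d) - e * (1 - c) - δ ≤ x)
    (hx2 : a * (1 - d) - e * a - δ + (b * (1 - c) - e * b - δ) - z ≤ x) :
    (1 - 2 * e) * ((1 - e) * (1 - c - d) + e * (a + b - 1)) - 2 * δ
      ≤ (1 - 2 * e) * x + 2 * e * z := by
  have hc : 0 ≤ c := hd.trans hdc
  set p := 1 - 2 * e with hpdef
  have hp1 : p ≤ 1 := by linarith
  set X := p * x + 2 * e * z - p * ((1 - e) * (1 - c - d) + e * (a + b - 1)) with hX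
  have hB1 : p * (c * d - e * (a + b + d - 1)) + 2 * e * z - p * δ ≤ X := by
    have := mul_le_mul_of_nonneg_left hx1 hp.le
    rw [hX]; nlinarith
  by_cases ha2 : 1 / 2 ≤ a
  · -- z ≥ b p / 2 - δ, a + b + d - 1 ≤ b
    have h1 : b * p / 2 - δ ≤ z := by
      have : b * (1 / 2 - e) ≤ b * (a - e) := mul_le_mul_of_nonneg_left (by linarith) hb
      rw [hpdef]; nlinarith
    have h2 : e * (a + b + d - 1) ≤ e * b := mul_le_mul_of_nonneg_left (by linarith) he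
    have h3 : 2 * e * (b * p / 2 - δ) ≤ 2 * e * z := mul_le_mul_of_nonneg_left h1 (by linarith)
    have h4 : 0 ≤ p * (c * d) := by positivity
    have h5 : p * (e * (a + b + d - 1)) ≤ p * (e * b) := mul_le_mul_of_nonneg_left h2 hp.le
    nlinarith
  by_cases hb2 : 1 / 2 ≤ b
  · have h1 : a * p / 2 - δ ≤ z := by
      have : a * (1 / 2 - e) ≤ a * (b - e) := mul_le_mul_of_nonneg_left (by linarith) ha
      rw [hpdef]; nlinarith
    have h2 : e * (a + b + d - 1) ≤ e * a := mul_le_mul_of_nonneg_left (by linarith) he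
    have h3 : 2 * e * (a * p / 2 - δ) ≤ 2 * e * z := mul_le_mul_of_nonneg_left h1 (by linarith)
    have h4 : 0 ≤ p * (c * d) := by positivity
    have h5 : p * (e * (a + b + d - 1)) ≤ p * (e * a) := mul_le_mul_of_nonneg_left h2 hp.le
    nlinarith
  push Not at ha2 hb2
  set D := 1 - a - b with hD
  have hD0 : 0 ≤ D := by rw [hD]; linarith
  have hB2 : -(p ^ 2 * D) - (p - 2 * e) * z + p * (d * (D + p)) - 2 * p * δ ≤ X := by
    have h1 := mul_le_mul_of_nonneg_left hx2 hp.le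
    have h2 : 0 ≤ (c - d) * (1 - b - e) := by
      refine mul_nonneg (by linarith) ?_
      nlinarith
    have h3 : 0 ≤ p * ((c - d) * (1 - b - e)) := mul_nonneg hp.le h2
    rw [hX, hD]
    have h4 : p * (a * (1 - d) - e * a - δ + (b * (1 - c) - e * b - δ) - z) + 2 * e * z
        - p * ((1 - e) * (1 - c - d) + e * (a + b - 1))
        - (-(p ^ 2 * (1 - a - b)) - (p - 2 * e) * z + p * (d * ((1 - a - b) + p)) - 2 * p * δ)
        = p * ((c - d) * (1 - b - e)) := by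
      rw [hpdef]; ring
    linarith
  have hkey : -(p * δ) ≤ (p + e) * X := by
    have h1 := mul_le_mul_of_nonneg_left hB1 hp.le
    have h2 := mul_le_mul_of_nonneg_left hB2 he
    have h3 : p * (p * (c * d - e * (a + b + d - 1)) + 2 * e * z - p * δ)
        + e * (-(p ^ 2 * D) - (p - 2 * e) * z + p * (d * (D + p)) - 2 * p * δ)
        = p ^ 2 * (c * d) + e * p * z + 2 * e ^ 2 * z + e * p * (d * D) - p * δ * (p + 2 * e) := by
      rw [hD]; ring
    have h4 : p + 2 * e = 1 := by rw [hpdef]; ring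
    rw [h4] at h3
    have h5 : 0 ≤ p ^ 2 * (c * d) := by positivity
    have h6 : 0 ≤ e * p * z := by positivity
    have h7 : 0 ≤ 2 * e ^ 2 * z := by positivity
    have h8 : 0 ≤ e * p * (d * D) := by positivity
    nlinarith
  have hfin : -(2 * δ) ≤ X := by
    by_contra! hneg
    have h1 : (p + e) * X < (p + e) * (-(2 * δ)) :=
      mul_lt_mul_of_pos_left hneg (by linarith)
    nlinarith
  rw [hX] at hfin
  linarith

/-- The cut inequality in real numbers. -/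
theorem cut_real {e a b c d z x δ : ℝ} (he : 0 ≤ e) (hp : 0 < 1 - 2 * e) (ha : 0 ≤ a) (hb : 0 ≤ b)
    (hc : 0 ≤ c) (hd : 0 ≤ d) (hac : a + c ≤ 1) (hbd : b + d ≤ 1) (hδ : 0 ≤ δ) (hz0 : 0 ≤ z)
    (hz1 : a * b - e * a - δ ≤ z) (hz2 : a * b - e * b - δ ≤ z)
    (hx1 : (1 - c) * (1 - d) - e * (1 - c) - δ ≤ x)
    (hx1' : (1 - c) * (1 - d) - e * (1 - d) - δ ≤ x)
    (hx2 : a * (1 - d) - e * a - δ + (b * (1 - c) - e * b - δ) - z ≤ x) :
    (1 - 2 * e) * ((1 - e) * (1 - c - d) + e * (a + b - 1)) - 2 * δ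
      ≤ (1 - 2 * e) * x + 2 * e * z := by
  rcases le_total d c with h | h
  · exact cut_aux he hp ha hb hd h hac hbd hδ hz0 hz1 hz2 hx1 hx2
  · have := cut_aux (e := e) (a := b) (b := a) (c := d) (d := c) (z := z) (x := x) (δ := δ) he hp
      hb ha hc h hbd hac hδ hz0 (by nlinarith) (by nlinarith) (by nlinarith) (by nlinarith)
    nlinarith

/-- The cut inequality with slack, small sets. `α, β, α', β'` are the relative sizes. -/
theorem small_real {e α β α' β' x z δ M c0 κ : ℝ} (he : 0 ≤ e) (hp : 0 < 1 - 2 * e)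
    (hM : 0 ≤ M) (hα' : 0 ≤ α') (hαα : α' ≤ α) (hβ1 : β ≤ 1) (hβ'1 : β' ≤ 1)
    (hα0 : α ≤ c0) (hαβ : 1 - β ≤ α) (hκ : 0 ≤ κ)
    (hg : 1 - e ≤ (1 + κ) * (1 - e - δ - M * c0)) (hz0 : 0 ≤ z)
    (hx : α * (1 - e - δ) - M * α * (1 - β) ≤ x)
    (hz : α' * (1 - e - δ) - M * α' * (1 - β') ≤ z) :
    (1 - 2 * e) * ((1 - e) * (α + β - 1) + e * (α' + β' - 1))
      ≤ (1 + κ) * ((1 - 2 * e) * x + 2 * e * z) := by
  have hα : 0 ≤ α := hα'.trans hαα
  set g := 1 - e - δ - M * c0 with hgdef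
  have h1e : 0 < 1 - e := by linarith
  have hxg : α * g ≤ x := by
    have h1 : α * (1 - β) ≤ α * c0 := mul_le_mul_of_nonneg_left (hαβ.trans hα0) hα
    have h2 : M * (α * (1 - β)) ≤ M * (α * c0) := mul_le_mul_of_nonneg_left h1 hM
    rw [hgdef]; nlinarith
  have hx2 : (1 - e) * α ≤ (1 + κ) * x := by
    have h1 : (1 - e) * α ≤ (1 + κ) * g * α := mul_le_mul_of_nonneg_right hg hα
    have h2 : (1 + κ) * (α * g) ≤ (1 + κ) * x := mul_le_mul_of_nonneg_left hxg (by linarith)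
    linarith
  have hL1 : (1 - e) * (α + β - 1) ≤ (1 - e) * α :=
    mul_le_mul_of_nonneg_left (by linarith) h1e.le
  by_cases hs : α' + β' ≤ 1
  · have e2 : e * (α' + β' - 1) ≤ 0 := mul_nonpos_of_nonneg_of_nonpos he (by linarith)
    have e3 : (1 - 2 * e) * ((1 - e) * (α + β - 1) + e * (α' + β' - 1))
        ≤ (1 - 2 * e) * ((1 + κ) * x) := mul_le_mul_of_nonneg_left (by linarith) hp.le
    have e4 : 0 ≤ (1 + κ) * (2 * e * z) := by positivity
    linarith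
  · push Not at hs
    have hzg : α' * g ≤ z := by
      have h1 : α' * (1 - β') ≤ α' * c0 := mul_le_mul_of_nonneg_left (by linarith) hα'
      have h2 : M * (α' * (1 - β')) ≤ M * (α' * c0) := mul_le_mul_of_nonneg_left h1 hM
      rw [hgdef]; nlinarith
    have hz2 : (1 - e) * α' ≤ (1 + κ) * z := by
      have h1 : (1 - e) * α' ≤ (1 + κ) * g * α' := mul_le_mul_of_nonneg_right hg hα'
      have h2 : (1 + κ) * (α' * g) ≤ (1 + κ) * z := mul_le_mul_of_nonneg_left hzg (by linarith)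
      linarith
    have hL2 : e * (α' + β' - 1) ≤ e * α' := mul_le_mul_of_nonneg_left (by linarith) he
    have e3 : (1 - 2 * e) * ((1 - e) * (α + β - 1) + e * (α' + β' - 1))
        ≤ (1 - 2 * e) * ((1 + κ) * x + e * α') := mul_le_mul_of_nonneg_left (by linarith) hp.le
    have e5 : 2 * e * ((1 - e) * α') ≤ 2 * e * ((1 + κ) * z) :=
      mul_le_mul_of_nonneg_left hz2 (by linarith)
    have e6 : 0 ≤ e * α' := mul_nonneg he hα'
    have e7 : (1 - 2 * e) * (e * α') ≤ 2 * e * ((1 - e) * α') := by nlinarith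
    linarith

/-- The cut inequality with slack, relative sizes. -/
theorem cut_slack {e α β α' β' x x1 x2 z δ M c0 κ p0 : ℝ} (he : 0 ≤ e) (hp0 : 0 < p0)
    (hp : p0 ≤ 1 - 2 * e)
    (hM : 0 ≤ M) (hα' : 0 ≤ α') (hαα : α' ≤ α) (hα1 : α ≤ 1)
    (hβ' : 0 ≤ β') (hββ : β' ≤ β) (hβ1 : β ≤ 1) (hκ : 0 ≤ κ) (hκ1 : κ ≤ 1) (hc0 : 0 < c0)
    (hδ : 0 ≤ δ) (hδc : 8 * δ ≤ κ * p0 ^ 2 * c0)
    (hg : 1 - e ≤ (1 + κ) * (1 - e - δ - M * c0)) (hz0 : 0 ≤ z) (hx0 : 0 ≤ x)
    (hx : α * (1 - e - δ) - M * α * (1 - β) ≤ x)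
    (hz : α' * (1 - e - δ) - M * α' * (1 - β') ≤ z)
    (hx' : β * (1 - e - δ) - M * β * (1 - α) ≤ x)
    (hz' : β' * (1 - e - δ) - M * β' * (1 - α') ≤ z)
    (hz1 : α' * β' - e * α' - δ ≤ z) (hz2 : α' * β' - e * β' - δ ≤ z)
    (hxx1 : α * β - e * α - δ ≤ x) (hxx2 : α * β - e * β - δ ≤ x)
    (h1 : α' * β - e * α' - δ ≤ x1) (h2 : α * β' - e * β' - δ ≤ x2) (h3 : x1 + x2 - z ≤ x) :
    (1 - 2 * e) * ((1 - e) * (α + β - 1) + e * (α' + β' - 1))
      ≤ (1 + κ) * ((1 - 2 * e) * x + 2 * e * z) := by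
  have hpp : 0 < 1 - 2 * e := hp0.trans_le hp
  have hp1 : p0 ≤ 1 := by linarith
  by_cases hs : α + β ≤ 1
  · have e1 : (1 - e) * (α + β - 1) ≤ 0 :=
      mul_nonpos_of_nonneg_of_nonpos (by linarith) (by linarith)
    have e2 : e * (α' + β' - 1) ≤ 0 := mul_nonpos_of_nonneg_of_nonpos he (by linarith)
    have e3 : (1 - 2 * e) * ((1 - e) * (α + β - 1) + e * (α' + β' - 1)) ≤ 0 :=
      mul_nonpos_of_nonneg_of_nonpos hpp.le (by linarith)
    have e4 : 0 ≤ (1 + κ) * ((1 - 2 * e) * x + 2 * e * z) := by positivity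
    linarith
  push Not at hs
  by_cases hA : α ≤ c0
  · exact small_real he hpp hM hα' hαα hβ1 (hββ.trans hβ1) hA (by linarith) hκ hg hz0 hx hz
  by_cases hB : β ≤ c0
  · have := small_real (x := x) (z := z) he hpp hM hβ' hββ hα1 (hαα.trans hα1) hB (by linarith)
      hκ hg hz0 hx' hz'
    have e1 : α + β - 1 = β + α - 1 := by ring
    have e2 : α' + β' - 1 = β' + α' - 1 := by ring
    rw [e1, e2]
    exact this
  push Not at hA hB
  have hcut := cut_real (e := e) (a := α') (b := β') (c := 1 - α) (d := 1 - β) (z := z) (x := x)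
    (δ := δ) he hpp hα' hβ' (by linarith) (by linarith) (by linarith) (by linarith) hδ hz0 hz1 hz2
    (by simpa using hxx1) (by simpa using hxx2) (by
      have e1 : 1 - (1 - α) = α := by ring
      have e2 : 1 - (1 - β) = β := by ring
      rw [e1, e2]; linarith)
  have e1 : 1 - (1 - α) - (1 - β) = α + β - 1 := by ring
  rw [e1] at hcut
  -- slack
  have hxl : c0 * (1 / 2 - e) - δ ≤ x := by
    by_cases hα2 : 1 / 2 ≤ α
    · have : c0 * (1 / 2 - e) ≤ β * (α - e) :=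
        mul_le_mul hB.le (by linarith) (by linarith) (by linarith)
      nlinarith
    · have : c0 * (1 / 2 - e) ≤ α * (β - e) :=
        mul_le_mul hA.le (by linarith) (by linarith) (by linarith)
      nlinarith
  have hδ2 : 2 * δ ≤ κ * ((1 - 2 * e) * x) := by
    have e2 : κ * p0 ^ 2 * c0 ≤ p0 * c0 := by
      have : κ * p0 ^ 2 ≤ p0 := by nlinarith
      exact mul_le_mul_of_nonneg_right this hc0.le
    have e3 : c0 * p0 / 4 ≤ x := by nlinarith
    have e4 : p0 * (c0 * p0 / 4) ≤ (1 - 2 * e) * x :=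
      mul_le_mul hp e3 (by positivity) hpp.le
    have e5 : κ * (p0 * (c0 * p0 / 4)) ≤ κ * ((1 - 2 * e) * x) :=
      mul_le_mul_of_nonneg_left e4 hκ
    nlinarith
  have e6 : 0 ≤ κ * (2 * e * z) := by positivity
  nlinarith

section sets

variable {ι κ : Type} [Fintype ι] [Fintype κ]

omit [Fintype ι] in
/-- Rows of a rectangle. -/
theorem rect_rows (m : ι → κ → ℝ) (M K c : ℝ) (hκ : (Fintype.card κ : ℝ) = K)
    (hM : ∀ i j, m i j ≤ M) (hrow : ∀ i, c * K ≤ ∑ j, m i j) (S : Finset ι) (T : Finset κ) :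
    (#S : ℝ) * (c * K) - M * (#S : ℝ) * (K - #T) ≤ ∑ i ∈ S, ∑ j ∈ T, m i j := by
  classical
  have h1 : ∀ i ∈ S, c * K - M * (K - #T) ≤ ∑ j ∈ T, m i j := by
    intro i _
    have h2 := Finset.sum_add_sum_compl T (fun j => m i j)
    have h3 : ∑ j ∈ Tᶜ, m i j ≤ ∑ j ∈ Tᶜ, M := Finset.sum_le_sum fun j _ => hM i j
    have h4 : ((#Tᶜ : ℕ) : ℝ) = K - #T := by
      rw [Finset.card_compl, Nat.cast_sub (Finset.card_le_univ T), hκ]
    simp only [Finset.sum_const, nsmul_eq_mul, h4] at h3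
    linarith [hrow i]
  have h5 := Finset.sum_le_sum h1
  simp only [Finset.sum_const, nsmul_eq_mul] at h5
  linarith

/-- The cut condition for a matrix with the rectangle property. -/
theorem set_cut [DecidableEq ι] [DecidableEq κ] (m : ι → κ → ℝ) (M K e δ c0 ε p0 : ℝ)
    (hK : 0 < K) (hι : (Fintype.card ι : ℝ) = K) (hκ : (Fintype.card κ : ℝ) = K)
    (he : 0 ≤ e) (hp0 : 0 < p0) (hp : p0 ≤ 1 - 2 * e) (hM0 : 0 ≤ M)
    (hε : 0 ≤ ε) (hε1 : ε ≤ 1) (hc0 : 0 < c0) (hδ : 0 ≤ δ) (hδc : 8 * δ ≤ ε * p0 ^ 2 * c0)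
    (hg : 1 - e ≤ (1 + ε) * (1 - e - δ - M * c0))
    (hm0 : ∀ i j, 0 ≤ m i j) (hM : ∀ i j, m i j ≤ M)
    (hR1 : ∀ (S : Finset ι) (T : Finset κ), (#S : ℝ) * #T - e * K * #S - δ * K ^ 2
      ≤ ∑ i ∈ S, ∑ j ∈ T, m i j)
    (hR2 : ∀ (S : Finset ι) (T : Finset κ), (#S : ℝ) * #T - e * K * #T - δ * K ^ 2
      ≤ ∑ i ∈ S, ∑ j ∈ T, m i j)
    (hrow : ∀ i, (1 - e - δ) * K ≤ ∑ j, m i j) (hcol : ∀ j, (1 - e - δ) * K ≤ ∑ i, m i j)
    (A A' : Finset ι) (B B' : Finset κ) (hA : A' ⊆ A) (hB : B' ⊆ B) :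
    (1 - e) * (#A + #B - K) + e * (#A' + #B' - K)
      ≤ (1 + ε) * ((∑ i ∈ A, ∑ j ∈ B, m i j) / K
        + 2 * e / (1 - 2 * e) * ((∑ i ∈ A', ∑ j ∈ B', m i j) / K)) := by
  have hpp : 0 < 1 - 2 * e := hp0.trans_le hp
  have hcS : ∀ S : Finset ι, (#S : ℝ) ≤ K := fun S => by
    rw [← hι]; exact_mod_cast Finset.card_le_univ S
  have hcT : ∀ T : Finset κ, (#T : ℝ) ≤ K := fun T => by
    rw [← hκ]; exact_mod_cast Finset.card_le_univ T
  have hK2 : 0 < K ^ 2 := by positivity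
  set x := (∑ i ∈ A, ∑ j ∈ B, m i j) / K ^ 2 with hx
  set z := (∑ i ∈ A', ∑ j ∈ B', m i j) / K ^ 2 with hz
  set x1 := (∑ i ∈ A', ∑ j ∈ B, m i j) / K ^ 2 with hx1
  set x2 := (∑ i ∈ A, ∑ j ∈ B', m i j) / K ^ 2 with hx2
  have hr1 : ∀ (S : Finset ι) (T : Finset κ),
      (#S : ℝ) / K * (#T / K) - e * (#S / K) - δ ≤ (∑ i ∈ S, ∑ j ∈ T, m i j) / K ^ 2 := by
    intro S T
    rw [le_div_iff₀ hK2]
    refine le_trans (le_of_eq ?_) (hR1 S T)
    field_simp
  have hr2 : ∀ (S : Finset ι) (T : Finset κ),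
      (#S : ℝ) / K * (#T / K) - e * (#T / K) - δ ≤ (∑ i ∈ S, ∑ j ∈ T, m i j) / K ^ 2 := by
    intro S T
    rw [le_div_iff₀ hK2]
    refine le_trans (le_of_eq ?_) (hR2 S T)
    field_simp
  have hr3 : ∀ (S : Finset ι) (T : Finset κ),
      (#S : ℝ) / K * (1 - e - δ) - M * (#S / K) * (1 - #T / K)
        ≤ (∑ i ∈ S, ∑ j ∈ T, m i j) / K ^ 2 := by
    intro S T
    rw [le_div_iff₀ hK2]
    refine le_trans (le_of_eq ?_) (rect_rows m M K (1 - e - δ) hκ hM hrow S T)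
    have e1 : (#S : ℝ) = #S / K * K := by field_simp
    have e2 : (#T : ℝ) = #T / K * K := by field_simp
    rw [e1, e2]
    field_simp
  have hr4 : ∀ (S : Finset ι) (T : Finset κ),
      (#T : ℝ) / K * (1 - e - δ) - M * (#T / K) * (1 - #S / K)
        ≤ (∑ i ∈ S, ∑ j ∈ T, m i j) / K ^ 2 := by
    intro S T
    rw [le_div_iff₀ hK2, Finset.sum_comm]
    refine le_trans (le_of_eq ?_)
      (rect_rows (fun j i => m i j) M K (1 - e - δ) hι (fun j i => hM i j) hcol T S)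
    field_simp
  have hadd : x1 + x2 - z ≤ x := by
    rw [hx, hz, hx1, hx2, ← add_div, ← sub_div]
    gcongr
    have e1 : ∑ i ∈ A, ∑ j ∈ B, m i j = ∑ i ∈ A', ∑ j ∈ B, m i j
        + ∑ i ∈ A \ A', ∑ j ∈ B, m i j := by
      rw [add_comm, Finset.sum_sdiff hA]
    have e2 : ∑ i ∈ A, ∑ j ∈ B', m i j = ∑ i ∈ A', ∑ j ∈ B', m i j
        + ∑ i ∈ A \ A', ∑ j ∈ B', m i j := by
      rw [add_comm, Finset.sum_sdiff hA]
    have e3 : ∑ i ∈ A \ A', ∑ j ∈ B', m i j ≤ ∑ i ∈ A \ A', ∑ j ∈ B, m i j :=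
      Finset.sum_le_sum fun i _ => Finset.sum_le_sum_of_subset_of_nonneg hB fun j _ _ => hm0 i j
    linarith
  have hnn : ∀ (S : Finset ι) (T : Finset κ), 0 ≤ (∑ i ∈ S, ∑ j ∈ T, m i j) / K ^ 2 :=
    fun S T => div_nonneg (Finset.sum_nonneg fun i _ => Finset.sum_nonneg fun j _ => hm0 i j)
      hK2.le
  have hAA : (#A' : ℝ) / K ≤ #A / K := by
    gcongr
  have hBB : (#B' : ℝ) / K ≤ #B / K := by
    gcongr
  have key := cut_slack (e := e) (α := #A / K) (β := #B / K) (α' := #A' / K) (β' := #B' / K)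
    (x := x) (x1 := x1) (x2 := x2) (z := z) (δ := δ) (M := M) (c0 := c0) (κ := ε) (p0 := p0)
    he hp0 hp hM0 (by positivity) hAA ((div_le_one hK).2 (hcS A)) (by positivity) hBB
    ((div_le_one hK).2 (hcT B)) hε hε1 hc0 hδ hδc hg (hnn _ _) (hnn _ _) (hr3 A B) (hr3 A' B')
    (hr4 A B) (hr4 A' B') (hr1 A' B') (hr2 A' B') (hr1 A B) (hr2 A B) (hr1 A' B) (hr2 A B') hadd
  have e1 : (∑ i ∈ A, ∑ j ∈ B, m i j) / K = K * x := by rw [hx]; field_simp
  have e2 : (∑ i ∈ A', ∑ j ∈ B', m i j) / K = K * z := by rw [hz]; field_simp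
  rw [e1, e2]
  have e3 : (1 - e) * (#A + #B - K) + e * (#A' + #B' - K)
      = K * ((1 - e) * (#A / K + #B / K - 1) + e * (#A' / K + #B' / K - 1)) := by
    field_simp
  rw [e3]
  have e4 : (1 + ε) * (K * x + 2 * e / (1 - 2 * e) * (K * z))
      = K * ((1 + ε) * ((1 - 2 * e) * x + 2 * e * z) / (1 - 2 * e)) := by
    field_simp
  rw [e4]
  refine mul_le_mul_of_nonneg_left ?_ hK.le
  rw [le_div_iff₀ hpp]
  linarith

/-- Gale's theorem with two layers. -/
theorem two_layer [DecidableEq ι] [DecidableEq κ] (W1 W2 : ι → κ → ℝ) (hW1 : ∀ i j, 0 ≤ W1 i j)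
    (hW2 : ∀ i j, 0 ≤ W2 i j) (K e : ℝ) (he : 0 ≤ e)
    (hι : (Fintype.card ι : ℝ) = K) (hκ : (Fintype.card κ : ℝ) = K)
    (hcut : ∀ (A A' : Finset ι) (B B' : Finset κ), A' ⊆ A → B' ⊆ B →
      (1 - e) * (#A + #B - K) + e * (#A' + #B' - K)
        ≤ ∑ i ∈ A, ∑ j ∈ B, W1 i j + ∑ i ∈ A', ∑ j ∈ B', W2 i j) :
    ∃ Z1 Z2 : ι → κ → ℝ, (∀ i j, 0 ≤ Z1 i j ∧ Z1 i j ≤ W1 i j) ∧
      (∀ i j, 0 ≤ Z2 i j ∧ Z2 i j ≤ W2 i j) ∧ (∀ i, ∑ j, (Z1 i j + Z2 i j) = 1) ∧
      (∀ j, ∑ i, (Z1 i j + Z2 i j) = 1) ∧ (∀ i, ∑ j, Z2 i j ≤ e) ∧ (∀ j, ∑ i, Z2 i j ≤ e) := by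
  have hK0 : 0 ≤ K := hι ▸ Nat.cast_nonneg _
  set big : ℝ := K * (1 + 2 * e) with hbig
  have hbig0 : 0 ≤ big := by positivity
  let W : ι ⊕ ι ⊕ κ → κ ⊕ κ ⊕ ι → ℝ
    | Sum.inl i, Sum.inl j => W1 i j
    | Sum.inl _, Sum.inr (Sum.inl _) => 0
    | Sum.inl i, Sum.inr (Sum.inr i') => if i = i' then big else 0
    | Sum.inr (Sum.inl _), Sum.inl _ => 0
    | Sum.inr (Sum.inl i), Sum.inr (Sum.inl j) => W2 i j
    | Sum.inr (Sum.inl i), Sum.inr (Sum.inr i') => if i = i' then big else 0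
    | Sum.inr (Sum.inr j), Sum.inl j' => if j = j' then big else 0
    | Sum.inr (Sum.inr j), Sum.inr (Sum.inl j') => if j = j' then big else 0
    | Sum.inr (Sum.inr _), Sum.inr (Sum.inr _) => 0
  have hW : ∀ x y, 0 ≤ W x y := by
    rintro (i | i | j) (j' | j' | i') <;> simp only [W] <;>
      first | exact hW1 _ _ | exact hW2 _ _ | exact le_rfl | (split_ifs <;> positivity)
  let r : ι ⊕ ι ⊕ κ → ℝ
    | Sum.inl _ => 1
    | Sum.inr _ => e
  let c : κ ⊕ κ ⊕ ι → ℝ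
    | Sum.inl _ => 1
    | Sum.inr _ => e
  have hr : ∑ x, r x = big := by
    rw [Fintype.sum_sum_type, Fintype.sum_sum_type]
    simp only [r, Finset.sum_const, Finset.card_univ, nsmul_eq_mul, hι, hκ, hbig]
    ring
  have hc : ∑ x, c x = big := by
    rw [Fintype.sum_sum_type, Fintype.sum_sum_type]
    simp only [c, Finset.sum_const, Finset.card_univ, nsmul_eq_mul, hι, hκ, hbig]
    ring
  have hr0 : ∀ x, 0 ≤ r x := by rintro (i | i) <;> simp only [r] <;> first | exact he | norm_num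
  have hc0 : ∀ x, 0 ≤ c x := by rintro (i | i) <;> simp only [c] <;> first | exact he | norm_num
  obtain ⟨Z, hZ0, hZW, hZr, hZc⟩ := Pool.Agent.H24.PK.gale W hW r c (by rw [hr, hc]) (by
    intro A C
    rw [hr]
    have hAr : ∑ x ∈ A, r x ≤ big := by
      rw [← hr]
      exact Finset.sum_le_sum_of_subset_of_nonneg (Finset.subset_univ _) fun x _ _ => hr0 x
    have hCc : ∑ y ∈ C, c y ≤ big := by
      rw [← hc]
      exact Finset.sum_le_sum_of_subset_of_nonneg (Finset.subset_univ _) fun x _ _ => hc0 x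
    have hbigcell : ∀ x ∈ A, ∀ y ∈ C, W x y = big →
        ∑ x ∈ A, r x + ∑ y ∈ C, c y ≤ big + ∑ x ∈ A, ∑ y ∈ C, W x y := by
      intro x hx y hy hxy
      have h1 : W x y ≤ ∑ y ∈ C, W x y :=
        Finset.single_le_sum (f := fun y => W x y) (fun y _ => hW x y) hy
      have h2 : ∑ y ∈ C, W x y ≤ ∑ x ∈ A, ∑ y ∈ C, W x y :=
        Finset.single_le_sum (f := fun x => ∑ y ∈ C, W x y)
          (fun x _ => Finset.sum_nonneg fun y _ => hW x y) hx
      linarith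
    by_cases hb1 : ∃ i, (Sum.inl i ∈ A ∨ Sum.inr (Sum.inl i) ∈ A) ∧ Sum.inr (Sum.inr i) ∈ C
    · obtain ⟨i, h1 | h1, h2⟩ := hb1
      · exact hbigcell _ h1 _ h2 (by simp [W])
      · exact hbigcell _ h1 _ h2 (by simp [W])
    by_cases hb2 : ∃ j, (Sum.inl j ∈ C ∨ Sum.inr (Sum.inl j) ∈ C) ∧ Sum.inr (Sum.inr j) ∈ A
    · obtain ⟨j, h1 | h1, h2⟩ := hb2
      · exact hbigcell _ h2 _ h1 (by simp [W])
      · exact hbigcell _ h2 _ h1 (by simp [W])
    push Not at hb1 hb2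
    let A1 : Finset ι := univ.filter fun i => Sum.inl i ∈ A
    let A2 : Finset ι := univ.filter fun i => Sum.inr (Sum.inl i) ∈ A
    let A3 : Finset κ := univ.filter fun j => Sum.inr (Sum.inr j) ∈ A
    let C1 : Finset κ := univ.filter fun i => Sum.inl i ∈ C
    let C2 : Finset κ := univ.filter fun i => Sum.inr (Sum.inl i) ∈ C
    let C3 : Finset ι := univ.filter fun j => Sum.inr (Sum.inr j) ∈ C
    have sA : ∀ f : ι ⊕ ι ⊕ κ → ℝ, ∑ x ∈ A, f x = ∑ i ∈ A1, f (Sum.inl i)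
        + (∑ i ∈ A2, f (Sum.inr (Sum.inl i)) + ∑ j ∈ A3, f (Sum.inr (Sum.inr j))) := by
      intro f
      have h1 : ∑ x ∈ A, f x = ∑ x, if x ∈ A then f x else 0 := by
        rw [← Finset.sum_filter]
        congr 1
        ext x
        simp
      rw [h1, Fintype.sum_sum_type, Fintype.sum_sum_type]
      simp only [A1, A2, A3, Finset.sum_filter]
    have sC : ∀ f : κ ⊕ κ ⊕ ι → ℝ, ∑ x ∈ C, f x = ∑ i ∈ C1, f (Sum.inl i)
        + (∑ i ∈ C2, f (Sum.inr (Sum.inl i)) + ∑ j ∈ C3, f (Sum.inr (Sum.inr j))) := by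
      intro f
      have h1 : ∑ x ∈ C, f x = ∑ x, if x ∈ C then f x else 0 := by
        rw [← Finset.sum_filter]
        congr 1
        ext x
        simp
      rw [h1, Fintype.sum_sum_type, Fintype.sum_sum_type]
      simp only [C1, C2, C3, Finset.sum_filter]
    have hrA : ∑ x ∈ A, r x = #A1 + (#A2 * e + #A3 * e) := by
      rw [sA]
      simp only [r, Finset.sum_const, nsmul_eq_mul, mul_one]
    have hcC : ∑ x ∈ C, c x = #C1 + (#C2 * e + #C3 * e) := by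
      rw [sC]
      simp only [c, Finset.sum_const, nsmul_eq_mul, mul_one]
    have hWAC : ∑ i ∈ A1, ∑ j ∈ C1, W1 i j + ∑ i ∈ A2, ∑ j ∈ C2, W2 i j
        ≤ ∑ x ∈ A, ∑ y ∈ C, W x y := by
      rw [sA]
      have h1 : ∑ i ∈ A1, ∑ j ∈ C1, W1 i j ≤ ∑ i ∈ A1, ∑ y ∈ C, W (Sum.inl i) y := by
        refine Finset.sum_le_sum fun i _ => ?_
        rw [sC]
        have h2 : 0 ≤ ∑ j ∈ C2, W (Sum.inl i) (Sum.inr (Sum.inl j)) :=
          Finset.sum_nonneg fun j _ => hW (Sum.inl i) (Sum.inr (Sum.inl j))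
        have h3 : 0 ≤ ∑ j ∈ C3, W (Sum.inl i) (Sum.inr (Sum.inr j)) :=
          Finset.sum_nonneg fun j _ => hW (Sum.inl i) (Sum.inr (Sum.inr j))
        have h4 : ∑ j ∈ C1, W (Sum.inl i) (Sum.inl j) = ∑ j ∈ C1, W1 i j := rfl
        linarith
      have h1' : ∑ i ∈ A2, ∑ j ∈ C2, W2 i j
          ≤ ∑ i ∈ A2, ∑ y ∈ C, W (Sum.inr (Sum.inl i)) y := by
        refine Finset.sum_le_sum fun i _ => ?_
        rw [sC]
        have h2 : 0 ≤ ∑ j ∈ C1, W (Sum.inr (Sum.inl i)) (Sum.inl j) :=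
          Finset.sum_nonneg fun j _ => hW (Sum.inr (Sum.inl i)) (Sum.inl j)
        have h3 : 0 ≤ ∑ j ∈ C3, W (Sum.inr (Sum.inl i)) (Sum.inr (Sum.inr j)) :=
          Finset.sum_nonneg fun j _ => hW (Sum.inr (Sum.inl i)) (Sum.inr (Sum.inr j))
        have h4 : ∑ j ∈ C2, W (Sum.inr (Sum.inl i)) (Sum.inr (Sum.inl j))
            = ∑ j ∈ C2, W2 i j := rfl
        linarith
      have h5 : 0 ≤ ∑ j ∈ A3, ∑ y ∈ C, W (Sum.inr (Sum.inr j)) y :=
        Finset.sum_nonneg fun j _ => Finset.sum_nonneg fun y _ => hW _ _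
      linarith
    have hW22 : ∑ i ∈ A1 ∩ A2, ∑ j ∈ C1 ∩ C2, W2 i j ≤ ∑ i ∈ A2, ∑ j ∈ C2, W2 i j := by
      refine (Finset.sum_le_sum fun i _ => Finset.sum_le_sum_of_subset_of_nonneg
        (Finset.inter_subset_right : C1 ∩ C2 ⊆ C2) fun j _ _ => hW2 i j).trans ?_
      exact Finset.sum_le_sum_of_subset_of_nonneg Finset.inter_subset_right
        fun i _ _ => Finset.sum_nonneg fun j _ => hW2 i j
    have hcc := hcut A1 (A1 ∩ A2) C1 (C1 ∩ C2) Finset.inter_subset_left Finset.inter_subset_left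
    have hA12 : (#C3 : ℝ) ≤ K - (#A1 + #A2 - #(A1 ∩ A2)) := by
      have h1 := Finset.card_union_add_card_inter A1 A2
      have h2 : Disjoint C3 (A1 ∪ A2) := by
        rw [Finset.disjoint_left]
        intro i hi1 hi2
        refine hb1 i ?_ (Finset.mem_filter.1 hi1).2
        rcases Finset.mem_union.1 hi2 with h | h
        · exact Or.inl (Finset.mem_filter.1 h).2
        · exact Or.inr (Finset.mem_filter.1 h).2
      have h3 : #C3 + #(A1 ∪ A2) ≤ Fintype.card ι := by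
        rw [← Finset.card_union_of_disjoint h2]
        exact Finset.card_le_univ _
      have h4 : (#C3 : ℝ) + #(A1 ∪ A2) ≤ K := by rw [← hι]; exact_mod_cast h3
      have h5 : (#(A1 ∪ A2) : ℝ) + #(A1 ∩ A2) = #A1 + #A2 := by exact_mod_cast h1
      linarith
    have hC12 : (#A3 : ℝ) ≤ K - (#C1 + #C2 - #(C1 ∩ C2)) := by
      have h1 := Finset.card_union_add_card_inter C1 C2
      have h2 : Disjoint A3 (C1 ∪ C2) := by
        rw [Finset.disjoint_left]
        intro i hi1 hi2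
        refine hb2 i ?_ (Finset.mem_filter.1 hi1).2
        rcases Finset.mem_union.1 hi2 with h | h
        · exact Or.inl (Finset.mem_filter.1 h).2
        · exact Or.inr (Finset.mem_filter.1 h).2
      have h3 : #A3 + #(C1 ∪ C2) ≤ Fintype.card κ := by
        rw [← Finset.card_union_of_disjoint h2]
        exact Finset.card_le_univ _
      have h4 : (#A3 : ℝ) + #(C1 ∪ C2) ≤ K := by rw [← hκ]; exact_mod_cast h3
      have h5 : (#(C1 ∪ C2) : ℝ) + #(C1 ∩ C2) = #C1 + #C2 := by exact_mod_cast h1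
      linarith
    rw [hrA, hcC]
    have e1 := mul_le_mul_of_nonneg_right hA12 he
    have e2 := mul_le_mul_of_nonneg_right hC12 he
    rw [hbig]
    nlinarith)
  -- rows
  have z1 : ∀ i j, Z (Sum.inl i) (Sum.inr (Sum.inl j)) = 0 := fun i j =>
    le_antisymm (hZW (Sum.inl i) (Sum.inr (Sum.inl j))) (hZ0 _ _)
  have z2 : ∀ i j, Z (Sum.inr (Sum.inl i)) (Sum.inl j) = 0 := fun i j =>
    le_antisymm (hZW (Sum.inr (Sum.inl i)) (Sum.inl j)) (hZ0 _ _)
  have z3 : ∀ j i, Z (Sum.inr (Sum.inr j)) (Sum.inr (Sum.inr i)) = 0 := fun j i =>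
    le_antisymm (hZW (Sum.inr (Sum.inr j)) (Sum.inr (Sum.inr i))) (hZ0 _ _)
  have z4 : ∀ i i', i ≠ i' → Z (Sum.inl i) (Sum.inr (Sum.inr i')) = 0 := fun i i' h =>
    le_antisymm ((hZW (Sum.inl i) (Sum.inr (Sum.inr i'))).trans_eq (by simp [W, h])) (hZ0 _ _)
  have z5 : ∀ i i', i ≠ i' → Z (Sum.inr (Sum.inl i)) (Sum.inr (Sum.inr i')) = 0 := fun i i' h =>
    le_antisymm ((hZW (Sum.inr (Sum.inl i)) (Sum.inr (Sum.inr i'))).trans_eq (by simp [W, h]))
      (hZ0 _ _)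
  have z6 : ∀ j j', j ≠ j' → Z (Sum.inr (Sum.inr j)) (Sum.inl j') = 0 := fun i i' h =>
    le_antisymm ((hZW (Sum.inr (Sum.inr i)) (Sum.inl i')).trans_eq (by simp [W, h])) (hZ0 _ _)
  have z7 : ∀ j j', j ≠ j' → Z (Sum.inr (Sum.inr j)) (Sum.inr (Sum.inl j')) = 0 := fun i i' h =>
    le_antisymm ((hZW (Sum.inr (Sum.inr i)) (Sum.inr (Sum.inl i'))).trans_eq (by simp [W, h]))
      (hZ0 _ _)
  have r1 : ∀ i, ∑ j, Z (Sum.inl i) (Sum.inl j) + Z (Sum.inl i) (Sum.inr (Sum.inr i)) = 1 := by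
    intro i
    have h := hZr (Sum.inl i)
    rw [Fintype.sum_sum_type, Fintype.sum_sum_type] at h
    rw [Finset.sum_eq_zero (fun j _ => z1 i j), zero_add,
      Finset.sum_eq_single i (fun i' _ h' => z4 i i' (Ne.symm h')) (by simp)] at h
    exact h
  have r2 : ∀ i, ∑ j, Z (Sum.inr (Sum.inl i)) (Sum.inr (Sum.inl j))
      + Z (Sum.inr (Sum.inl i)) (Sum.inr (Sum.inr i)) = e := by
    intro i
    have h := hZr (Sum.inr (Sum.inl i))
    rw [Fintype.sum_sum_type, Fintype.sum_sum_type] at h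
    rw [Finset.sum_eq_zero (fun j _ => z2 i j), zero_add,
      Finset.sum_eq_single i (fun i' _ h' => z5 i i' (Ne.symm h')) (by simp)] at h
    exact h
  have r3 : ∀ j, Z (Sum.inr (Sum.inr j)) (Sum.inl j)
      + Z (Sum.inr (Sum.inr j)) (Sum.inr (Sum.inl j)) = e := by
    intro j
    have h := hZr (Sum.inr (Sum.inr j))
    rw [Fintype.sum_sum_type, Fintype.sum_sum_type] at h
    rw [Finset.sum_eq_single j (fun i' _ h' => z6 j i' (Ne.symm h')) (by simp),
      Finset.sum_eq_single j (fun i' _ h' => z7 j i' (Ne.symm h')) (by simp),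
      Finset.sum_eq_zero (fun i _ => z3 j i), add_zero] at h
    exact h
  have c1 : ∀ j, ∑ i, Z (Sum.inl i) (Sum.inl j) + Z (Sum.inr (Sum.inr j)) (Sum.inl j) = 1 := by
    intro j
    have h := hZc (Sum.inl j)
    rw [Fintype.sum_sum_type, Fintype.sum_sum_type] at h
    rw [Finset.sum_eq_zero (fun i _ => z2 i j), zero_add,
      Finset.sum_eq_single j (fun i' _ h' => z6 i' j h') (by simp)] at h
    exact h
  have c2 : ∀ j, ∑ i, Z (Sum.inr (Sum.inl i)) (Sum.inr (Sum.inl j))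
      + Z (Sum.inr (Sum.inr j)) (Sum.inr (Sum.inl j)) = e := by
    intro j
    have h := hZc (Sum.inr (Sum.inl j))
    rw [Fintype.sum_sum_type, Fintype.sum_sum_type] at h
    rw [Finset.sum_eq_zero (fun i _ => z1 i j), zero_add,
      Finset.sum_eq_single j (fun i' _ h' => z7 i' j h') (by simp)] at h
    exact h
  have c3 : ∀ i, Z (Sum.inl i) (Sum.inr (Sum.inr i))
      + Z (Sum.inr (Sum.inl i)) (Sum.inr (Sum.inr i)) = e := by
    intro i
    have h := hZc (Sum.inr (Sum.inr i))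
    rw [Fintype.sum_sum_type, Fintype.sum_sum_type] at h
    rw [Finset.sum_eq_single i (fun i' _ h' => z4 i' i h') (by simp),
      Finset.sum_eq_single i (fun i' _ h' => z5 i' i h') (by simp),
      Finset.sum_eq_zero (fun j _ => z3 j i), add_zero] at h
    exact h
  refine ⟨fun i j => Z (Sum.inl i) (Sum.inl j), fun i j => Z (Sum.inr (Sum.inl i))
    (Sum.inr (Sum.inl j)), fun i j => ⟨hZ0 _ _, hZW (Sum.inl i) (Sum.inl j)⟩,
    fun i j => ⟨hZ0 _ _, hZW (Sum.inr (Sum.inl i)) (Sum.inr (Sum.inl j))⟩, fun i => ?_,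
    fun j => ?_, fun i => ?_, fun j => ?_⟩
  · rw [Finset.sum_add_distrib]
    linarith [r1 i, r2 i, c3 i]
  · rw [Finset.sum_add_distrib]
    linarith [c1 j, c2 j, r3 j]
  · linarith [r2 i, hZ0 (Sum.inr (Sum.inl i)) (Sum.inr (Sum.inr i))]
  · linarith [c2 j, hZ0 (Sum.inr (Sum.inr j)) (Sum.inr (Sum.inl j))]

end sets

open Pool.Agent.PK Pool.Agent.H24.LP Pool.Agent.H24.LP.Nib

/-- Existence of the law (parts (4a)-(4d) of the plan). -/
theorem law_exists {ε κ : ℝ} (hε : 0 < ε) (hκ : 0 < κ) : ∃ ν : ℝ, 0 < ν ∧ ∃ K0 : ℕ,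
    ∀ K : ℕ, K0 ≤ K → ∀ (B : Finset (Fin K × Fin K)) (a p c : ℝ) (R : Fin K → Fin K → ℝ),
      ε ≤ p → State B a p ν c R → ∃ q1 q2 : Fin K → Fin K → ℝ, Law B a p κ q1 q2 := by
  classical
  by_cases hε1 : 1 < ε
  · refine ⟨1, one_pos, 0, fun K _ B a p c R hp hS => ?_⟩
    exfalso
    linarith [hS.pa, hS.a1]
  push Not at hε1
  obtain ⟨k, hk0, hkκ, hk1⟩ : ∃ k : ℝ, 0 < k ∧ k ≤ κ ∧ k ≤ 1 :=
    ⟨min κ 1, lt_min hκ one_pos, min_le_left _ _, min_le_right _ _⟩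
  set M : ℝ := 1 / ε with hM
  set c0 : ℝ := k * ε / 8 with hc0def
  have hc0 : 0 < c0 := by positivity
  set δ : ℝ := k * ε ^ 2 * c0 / 8 with hδdef
  have hδ0 : 0 < δ := by positivity
  have hMc : M * c0 = k / 8 := by rw [hM, hc0def]; field_simp
  have hε2 : ε ^ 2 ≤ 1 := by nlinarith
  have hδk : δ ≤ k / 64 := by
    have h1 : c0 ≤ 1 / 8 := by rw [hc0def]; nlinarith
    have h2 : k * ε ^ 2 ≤ k := by nlinarith
    have h3 : k * ε ^ 2 * c0 ≤ k * (1 / 8) := mul_le_mul h2 h1 hc0.le hk0.le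
    rw [hδdef]; linarith
  obtain ⟨ν, hν, hdense⟩ := dense ε δ hε hδ0
  refine ⟨ν, hν, 1, fun K hK B a p c R hp hS => ?_⟩
  have hK0 : (0 : ℝ) < K := by exact_mod_cast hK
  have hp0 : 0 < p := hε.trans_le hp
  have ha0 : 0 < a := hp0.trans_le hS.pa
  have hcard : (Fintype.card (Fin K) : ℝ) = K := by simp
  set e : ℝ := (1 - p / a) / 2 with hedef
  have hpa1 : p / a ≤ 1 := (div_le_one ha0).2 hS.pa
  have he0 : 0 ≤ e := by rw [hedef]; linarith
  have h12e : 1 - 2 * e = p / a := by rw [hedef]; ring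
  have hη : (a - p) / 2 / a = e := by rw [hedef]; field_simp
  have hpa : ε ≤ p / a := by
    rw [le_div_iff₀ ha0]
    nlinarith [hS.a1]
  let Bf : Fin K → Fin K → ℝ := fun i j => if (i, j) ∈ B then 1 else 0
  have hrect : ∀ S T : Finset (Fin K), ∑ i ∈ S, ∑ j ∈ T, Bf i j = ((rect B S T).card : ℝ) := by
    intro S T
    have h1 : ∑ i ∈ S, ∑ j ∈ T, Bf i j = ∑ x ∈ S ×ˢ T, Bf x.1 x.2 :=
      (Finset.sum_product' S T Bf).symm
    rw [h1]
    simp only [Bf, Prod.mk.eta, Finset.sum_boole]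
    congr 2
    ext x
    simp only [rect, Finset.mem_filter, Finset.mem_product]
    tauto
  have hrow : ∀ i, ∑ j, Bf i j = ((univ.filter fun j => (i, j) ∈ B).card : ℝ) := by
    intro i
    simp only [Bf, Finset.sum_boole]
  have hcol : ∀ j, ∑ i, Bf i j = ((univ.filter fun i => (i, j) ∈ B).card : ℝ) := by
    intro j
    simp only [Bf, Finset.sum_boole]
  obtain ⟨m, hm1, hm2, hm3, hm4, hm5⟩ := hdense (K : ℝ) Bf R a ((a - p) / 2) hcard hcard
    (hp.trans hS.pa) hS.a1 (by linarith [hS.a1]) (fun i j => by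
      simp only [Bf]; split_ifs <;> norm_num) hS.R0 hS.row hS.col (fun S T => by
      rw [hrect]
      have h1 := hS.rct S T
      have h2 : ∑ i ∈ S, ∑ j ∈ T, (a - R i j) = a * (#S * #T) - ∑ i ∈ S, ∑ j ∈ T, R i j := by
        simp only [Finset.sum_sub_distrib, Finset.sum_const, nsmul_eq_mul]
        ring
      rw [h2]
      linarith) (fun i => by
      rw [hrow]
      linarith [hS.rowB i]) (fun j => by
      rw [hcol]
      linarith [hS.colB j])
  rw [hη] at hm4 hm5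
  have hma : ∀ i j, m i j ≤ 1 / a := by
    intro i j
    rw [le_div_iff₀ ha0, mul_comm]
    refine (hm1 i j).2.trans ?_
    simp only [Bf]; split_ifs <;> norm_num
  have hmM : ∀ i j, m i j ≤ M := fun i j => (hma i j).trans (by
    rw [hM]; exact one_div_le_one_div_of_le hε (hp.trans hS.pa))
  have hR1 : ∀ (S T : Finset (Fin K)), (#S : ℝ) * #T - e * K * #S - δ * (K : ℝ) ^ 2
      ≤ ∑ i ∈ S, ∑ j ∈ T, m i j := by
    intro S T
    have h1 := hm3 S T
    have h2 : ∑ i ∈ S, ∑ j ∈ T, (1 - R i j / a)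
        = (#S : ℝ) * #T - ∑ i ∈ S, (∑ j ∈ T, R i j) / a := by
      simp only [Finset.sum_sub_distrib, Finset.sum_const, nsmul_eq_mul, Finset.sum_div]
      ring
    have h3 : ∑ i ∈ S, (∑ j ∈ T, R i j) / a ≤ ∑ i ∈ S, e * K := by
      refine Finset.sum_le_sum fun i _ => ?_
      rw [div_le_iff₀ ha0, ← hη]
      have h4 : ∑ j ∈ T, R i j ≤ ∑ j, R i j :=
        Finset.sum_le_sum_of_subset_of_nonneg (Finset.subset_univ _) fun j _ _ => hS.R0 i j
      have h5 : (a - p) / 2 / a * (K : ℝ) * a = (a - p) / 2 * K := by field_simp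
      rw [h5]
      exact h4.trans (hS.row i)
    simp only [Finset.sum_const, nsmul_eq_mul] at h3
    linarith
  have hR2 : ∀ (S T : Finset (Fin K)), (#S : ℝ) * #T - e * K * #T - δ * (K : ℝ) ^ 2
      ≤ ∑ i ∈ S, ∑ j ∈ T, m i j := by
    intro S T
    have h1 := hm3 S T
    have h2 : ∑ i ∈ S, ∑ j ∈ T, (1 - R i j / a)
        = (#S : ℝ) * #T - ∑ j ∈ T, (∑ i ∈ S, R i j) / a := by
      simp only [Finset.sum_sub_distrib, Finset.sum_const, nsmul_eq_mul, Finset.sum_div]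
      rw [Finset.sum_comm]
      ring
    have h3 : ∑ j ∈ T, (∑ i ∈ S, R i j) / a ≤ ∑ j ∈ T, e * K := by
      refine Finset.sum_le_sum fun j _ => ?_
      rw [div_le_iff₀ ha0, ← hη]
      have h4 : ∑ i ∈ S, R i j ≤ ∑ i, R i j :=
        Finset.sum_le_sum_of_subset_of_nonneg (Finset.subset_univ _) fun i _ _ => hS.R0 i j
      have h5 : (a - p) / 2 / a * (K : ℝ) * a = (a - p) / 2 * K := by field_simp
      rw [h5]
      exact h4.trans (hS.col j)
    simp only [Finset.sum_const, nsmul_eq_mul] at h3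
    linarith
  have hg : 1 - e ≤ (1 + k) * (1 - e - δ - M * c0) := by
    rw [hMc]
    have h1 : 1 / 2 ≤ 1 - e := by rw [hedef]; linarith [div_pos hp0 ha0]
    nlinarith
  have h12 : 0 < 1 - 2 * e := by rw [h12e]; positivity
  set W1 : Fin K → Fin K → ℝ := fun i j => (1 + k) * (m i j / K) with hW1
  set W2 : Fin K → Fin K → ℝ := fun i j => (1 + k) * (2 * e / (1 - 2 * e) * (m i j / K)) with hW2
  obtain ⟨q1, q2, hq1, hq2, hqr, hqc, hq2r, hq2c⟩ := two_layer W1 W2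
    (fun i j => mul_nonneg (by linarith) (div_nonneg (hm1 i j).1 hK0.le))
    (fun i j => mul_nonneg (by linarith) (mul_nonneg (div_nonneg (by linarith) h12.le)
      (div_nonneg (hm1 i j).1 hK0.le))) (K : ℝ) e he0 hcard hcard (by
      intro A A' C C' hA hC
      have h1 := set_cut m M (K : ℝ) e δ c0 k ε hK0 hcard hcard he0 hε (by rw [h12e]; exact hpa)
        (by rw [hM]; positivity) hk0.le hk1 hc0 hδ0.le (by rw [hδdef]; linarith) hg
        (fun i j => (hm1 i j).1) hmM hR1 hR2 hm4 hm5 A A' C C' hA hC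
      refine h1.trans (le_of_eq ?_)
      simp only [hW1, hW2, mul_add, ← Finset.mul_sum, Finset.sum_div])
  refine ⟨q1, q2, ?_⟩
  have hq1le : ∀ i j, q1 i j ≤ (1 + k) * (m i j / K) := fun i j => (hq1 i j).2
  have hsum : ∀ i j, q1 i j + q2 i j ≤ (1 + k) * (m i j / K) * (a / p) := by
    intro i j
    have h1 := (hq1 i j).2
    have h2 := (hq2 i j).2
    have h3 : W1 i j + W2 i j = (1 + k) * (m i j / K) * (a / p) := by
      simp only [hW1, hW2]
      have h4 : 2 * e / (1 - 2 * e) = a / p - 1 := by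
        rw [h12e, hedef]
        field_simp
      rw [h4]
      ring
    linarith
  refine ⟨fun i j => (hq1 i j).1, fun i j => (hq2 i j).1, hqr, hqc, ?_, ?_, ?_, ?_, ?_, ?_⟩
  · intro i j hij
    have h1 : m i j = 0 := by
      have h2 := (hm1 i j).2
      simp only [Bf, hij, if_false] at h2
      have h3 := (hm1 i j).1
      nlinarith
    have h4 := hsum i j
    rw [h1] at h4
    simp only [zero_div, mul_zero, zero_mul] at h4
    have h5 := (hq1 i j).1
    have h6 := (hq2 i j).1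
    constructor <;> linarith
  · intro i j
    refine (hq1le i j).trans ?_
    have h1 : m i j / K ≤ 1 / a / K := by gcongr; exact hma i j
    have h2 : (1 + κ) / (a * K) = (1 + κ) * (1 / a / K) := by field_simp
    rw [h2]
    exact mul_le_mul (by linarith) h1 (div_nonneg (hm1 i j).1 hK0.le) (by linarith)
  · intro i j
    refine (hsum i j).trans ?_
    have h1 : m i j / K ≤ 1 / a / K := by gcongr; exact hma i j
    have h2 : (1 + κ) / (p * K) = (1 + κ) * (1 / a / K) * (a / p) := by field_simp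
    rw [h2]
    have h3 : 0 ≤ a / p := by positivity
    exact mul_le_mul_of_nonneg_right (mul_le_mul (by linarith) h1
      (div_nonneg (hm1 i j).1 hK0.le) (by linarith)) h3
  · intro i
    linarith [hq2r i]
  · intro j
    linarith [hq2c j]
  · intro S T
    have h1 : ∑ i ∈ S, ∑ j ∈ T, q1 i j ≤ (1 + k) * ((∑ i ∈ S, ∑ j ∈ T, m i j) / K) := by
      simp only [Finset.sum_div, Finset.mul_sum]
      exact Finset.sum_le_sum fun i _ => Finset.sum_le_sum fun j _ => hq1le i j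
    have h2 : (∑ i ∈ S, ∑ j ∈ T, m i j) / K ≤ (#S * #T : ℝ) / K + δ * K := by
      rw [div_le_iff₀ hK0]
      refine (hm2 S T).trans (le_of_eq ?_)
      field_simp
    have h3 : (1 + k) * ((∑ i ∈ S, ∑ j ∈ T, m i j) / K)
        ≤ (1 + k) * ((#S * #T : ℝ) / K + δ * K) :=
      mul_le_mul_of_nonneg_left h2 (by linarith)
    have h4 : (0 : ℝ) ≤ (#S * #T : ℝ) / K := by positivity
    have h5 : (1 + k) * (δ * K) ≤ κ * K := by
      have : (1 + k) * δ ≤ κ := by nlinarith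
      nlinarith
    have h6 : (1 + k) * ((#S * #T : ℝ) / K) ≤ (1 + κ) * ((#S * #T : ℝ) / K) :=
      mul_le_mul_of_nonneg_right (by linarith) h4
    have h7 : (1 + κ) * (#S * #T : ℝ) / K = (1 + κ) * ((#S * #T : ℝ) / K) := by ring
    rw [h7]
    linarith

end Pool.Agent.H97.PK
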